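import Mathlib

set_option autoImplicit false

/-!
# A multi-shift Hammersley-Chapman-Robbins bound for lattice Gaussian weights (MP_57c4e5_pr)
-/

namespace Run7.h934

open Real

theorem abstract_bound {X : Type*} [AddCommGroup X] (β : ℝ) (B : X → X → ℝ)
    (hsym : ∀ x y, B x y = B y x) (hadd : ∀ x y z, B (x + y) z = B x z + B y z)
    (f : X → ℝ) (hf : ∀ x y, f (x + y) = f x + f y)
    (hw : Summable fun x => exp (-β * B x x))
    (hf2 : Summable fun x => f x ^ 2 * exp (-β * B x x))
    {ι : Type*} (s : Finset ι) (k : ι → X) (hk : ∀ i ∈ s, f (k i) = 1)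
    (Q : ℝ) (hQ : 0 < Q)
    (hQ' : ∑ i ∈ s, ∑ j ∈ s, (exp (2 * β * B (k i) (k j)) - 1) ≤ Q) :
    (s.card : ℝ) ^ 2 / Q * ∑' x, exp (-β * B x x) ≤ ∑' x, f x ^ 2 * exp (-β * B x x) := by
  classical
  set w : X → ℝ := fun x => exp (-β * B x x) with hwdef
  have hadd2 : ∀ x y z, B z (x + y) = B z x + B z y := by
    intro x y z; rw [hsym, hadd, hsym x z, hsym y z]
  have hneg : ∀ x y, B (-x) y = - B x y := by
    intro x y
    have h0 : B 0 y = 0 := by
      have := hadd 0 0 y
      simp only [add_zero] at this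
      linarith
    have := hadd x (-x) y
    rw [add_neg_cancel, h0] at this
    linarith
  have hneg2 : ∀ x y, B x (-y) = - B x y := by
    intro x y; rw [hsym, hneg, hsym]
  have hsub : ∀ x k, B (x - k) (x - k) = B x x - 2 * B x k + B k k := by
    intro x k
    rw [sub_eq_add_neg, hadd, hadd2, hadd2, hneg, hneg, hneg2, hneg2, hsym k x]
    ring
  -- shift invariance of sums
  have shift : ∀ (k : X) (g : X → ℝ), ∑' x, g (x - k) = ∑' x, g x := by
    intro k g
    exact (Equiv.subRight k).tsum_eq g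
  have shiftS : ∀ (k : X) (g : X → ℝ), Summable g → Summable fun x => g (x - k) := by
    intro k g hg
    exact (Equiv.subRight k).summable_iff.2 hg
  let r : ι → X → ℝ := fun i x => exp (2 * β * B x (k i) - β * B (k i) (k i))
  have hr1 : ∀ i x, r i x * w x = w (x - k i) := by
    intro i x
    simp only [r, hwdef]
    rw [← exp_add, hsub]
    congr 1
    ring
  have hr2 : ∀ i j x, r i x * r j x * w x = exp (2 * β * B (k i) (k j)) * w (x - (k i + k j)) := by
    intro i j x
    simp only [r, hwdef]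
    rw [← exp_add, ← exp_add, ← exp_add, hsub, hadd2, hadd, hadd2, hadd2, hsym (k j) (k i)]
    congr 1
    ring
  have hfw : Summable fun x => f x * w x := by
    refine Summable.of_norm_bounded (g := fun x => w x + f x ^ 2 * w x) (hw.add hf2) ?_
    intro x
    have hwx : 0 ≤ w x := (exp_pos _).le
    rw [norm_mul, Real.norm_eq_abs, Real.norm_eq_abs, abs_of_nonneg hwx]
    have : |f x| ≤ 1 + f x ^ 2 := by
      rcases le_total 0 (f x) with h | h
      · rw [abs_of_nonneg h]; nlinarith [sq_nonneg (f x - 1)]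
      · rw [abs_of_nonpos h]; nlinarith [sq_nonneg (f x + 1)]
    nlinarith
  have hf0 : ∀ x y, f (x - y) = f x - f y := by
    intro x y
    have := hf (x - y) y
    rw [sub_add_cancel] at this
    linarith
  set S0 : ℝ := ∑' x, w x with hS0
  set S2 : ℝ := ∑' x, f x ^ 2 * w x with hS2
  have hS0pos : 0 ≤ S0 := tsum_nonneg fun x => (exp_pos _).le
  -- the linear terms
  have hlin : ∀ i ∈ s, Summable (fun x => f x * (r i x - 1) * w x) ∧
      ∑' x, f x * (r i x - 1) * w x = S0 := by
    intro i hi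
    have e : (fun x => f x * (r i x - 1) * w x) =
        fun x => (fun y => f y * w y) (x - k i) + w (x - k i) - f x * w x := by
      funext x
      have h1 := hr1 i x
      have h2 := hf0 x (k i)
      rw [hk i hi] at h2
      simp only
      rw [h2, ← h1]
      ring
    have s1 := shiftS (k i) _ hfw
    have s2 := shiftS (k i) _ hw
    rw [e]
    refine ⟨(s1.add s2).sub hfw, ?_⟩
    rw [(s1.add s2).tsum_sub hfw, s1.tsum_add s2, shift (k i) (fun y => f y * w y),
      shift (k i) (fun y => exp (-β * B y y))]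
    simp only [hS0, hwdef]
    ring
  have hquad : ∀ i j, Summable (fun x => (r i x - 1) * (r j x - 1) * w x) ∧
      ∑' x, (r i x - 1) * (r j x - 1) * w x = (exp (2 * β * B (k i) (k j)) - 1) * S0 := by
    intro i j
    have e : (fun x => (r i x - 1) * (r j x - 1) * w x) =
        fun x => exp (2 * β * B (k i) (k j)) * w (x - (k i + k j)) - w (x - k i) - w (x - k j)
          + w x := by
      funext x
      rw [← hr1 i x, ← hr1 j x, ← hr2 i j x]
      ring
    have s1 := (shiftS (k i + k j) _ hw).mul_left (exp (2 * β * B (k i) (k j)))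
    have s2 := shiftS (k i) _ hw
    have s3 := shiftS (k j) _ hw
    rw [e]
    refine ⟨((s1.sub s2).sub s3).add hw, ?_⟩
    rw [((s1.sub s2).sub s3).tsum_add hw, (s1.sub s2).tsum_sub s3, s1.tsum_sub s2, tsum_mul_left,
      shift (k i + k j) (fun y => exp (-β * B y y)), shift (k i) (fun y => exp (-β * B y y)),
      shift (k j) (fun y => exp (-β * B y y))]
    simp only [hS0, hwdef]
    ring
  -- positivity
  have key : ∀ t : ℝ, 0 ≤ S2 - 2 * t * (s.card * S0) +
      t ^ 2 * ((∑ i ∈ s, ∑ j ∈ s, (exp (2 * β * B (k i) (k j)) - 1)) * S0) := by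
    intro t
    have e : ∀ x, (f x - t * ∑ i ∈ s, (r i x - 1)) ^ 2 * w x =
        f x ^ 2 * w x - 2 * t * ∑ i ∈ s, f x * (r i x - 1) * w x +
        t ^ 2 * ∑ i ∈ s, ∑ j ∈ s, (r i x - 1) * (r j x - 1) * w x := by
      intro x
      have a1 : ∑ i ∈ s, f x * (r i x - 1) * w x = f x * w x * ∑ i ∈ s, (r i x - 1) := by
        rw [Finset.mul_sum]
        exact Finset.sum_congr rfl fun i _ => by ring
      have a2 : ∑ i ∈ s, ∑ j ∈ s, (r i x - 1) * (r j x - 1) * w x =
          w x * ((∑ i ∈ s, (r i x - 1)) * ∑ i ∈ s, (r i x - 1)) := by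
        rw [Finset.sum_mul_sum, Finset.mul_sum]
        refine Finset.sum_congr rfl fun i _ => ?_
        rw [Finset.mul_sum]
        exact Finset.sum_congr rfl fun j _ => by ring
      rw [a1, a2]
      ring
    have hs1 : HasSum (fun x => ∑ i ∈ s, f x * (r i x - 1) * w x) (∑ i ∈ s, S0) :=
      hasSum_sum fun i hi => (hlin i hi).2 ▸ (hlin i hi).1.hasSum
    have hs2 : HasSum (fun x => ∑ i ∈ s, ∑ j ∈ s, (r i x - 1) * (r j x - 1) * w x)
        (∑ i ∈ s, ∑ j ∈ s, (exp (2 * β * B (k i) (k j)) - 1) * S0) :=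
      hasSum_sum fun i hi => hasSum_sum fun j hj => (hquad i j).2 ▸ (hquad i j).1.hasSum
    have hs : HasSum (fun x => (f x - t * ∑ i ∈ s, (r i x - 1)) ^ 2 * w x)
        (S2 - 2 * t * (∑ i ∈ s, S0) +
          t ^ 2 * ∑ i ∈ s, ∑ j ∈ s, (exp (2 * β * B (k i) (k j)) - 1) * S0) := by
      simp only [e]
      exact (hf2.hasSum.sub (hs1.mul_left (2 * t))).add (hs2.mul_left (t ^ 2))
    have hn := hs.nonneg fun x => mul_nonneg (sq_nonneg _) (exp_pos _).le
    have e1 : (∑ _i ∈ s, S0) = s.card * S0 := by simp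
    have e2 : (∑ i ∈ s, ∑ j ∈ s, (exp (2 * β * B (k i) (k j)) - 1) * S0) =
        (∑ i ∈ s, ∑ j ∈ s, (exp (2 * β * B (k i) (k j)) - 1)) * S0 := by
      rw [Finset.sum_mul]
      exact Finset.sum_congr rfl fun i _ => by rw [Finset.sum_mul]
    rw [e1, e2] at hn
    exact hn
  have h := key (s.card / Q)
  have h1 : ((s.card : ℝ) / Q) ^ 2 *
      ((∑ i ∈ s, ∑ j ∈ s, (exp (2 * β * B (k i) (k j)) - 1)) * S0) ≤
      ((s.card : ℝ) / Q) ^ 2 * (Q * S0) := by
    apply mul_le_mul_of_nonneg_left _ (sq_nonneg _)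
    exact mul_le_mul_of_nonneg_right hQ' hS0pos
  have h2 : ((s.card : ℝ) / Q) ^ 2 * (Q * S0) = (s.card : ℝ) ^ 2 / Q * S0 := by
    field_simp
  have h3 : 2 * ((s.card : ℝ) / Q) * (s.card * S0) = 2 * ((s.card : ℝ) ^ 2 / Q * S0) := by
    field_simp
  rw [h2] at h1
  rw [h3] at h
  linarith

end Run7.h934
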