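import Pool.Agent.Run7.h934.Form

set_option autoImplicit false

/-!
# A Sobolev type inequality for the long-range Dirichlet form (MP_57c4e5_pr)
-/

namespace Run7.h934

open Real Finset

theorem T_nonneg (α : ℝ) (f : ℤ → ℝ) (p : ℤ × ℤ) : 0 ≤ T α f f p := by
  unfold T
  exact mul_nonneg (by positivity) (mul_self_nonneg _)

theorem Bf_self_nonneg (α : ℝ) (f : ℤ → ℝ) : 0 ≤ Bf α f f :=
  tsum_nonneg fun p => T_nonneg α f p

/-- comparison of two averages -/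
theorem avg_sub_sq_le (α : ℝ) (hα : 1 < α) (N : ℕ) (f : ℤ → ℝ)
    (hf : ∀ x : ℤ, (N : ℤ) < |x| → f x = 0) (A B : Finset ℤ) (hA : A.Nonempty) (hB : B.Nonempty)
    (D : ℝ) (hD : ∀ x ∈ A, ∀ y ∈ B, |((x - y : ℤ) : ℝ)| ≤ D) :
    ((∑ x ∈ A, f x) / A.card - (∑ y ∈ B, f y) / B.card) ^ 2 ≤
      D ^ α / (A.card * B.card) * Bf α f f := by
  have hA0 : (0 : ℝ) < A.card := by exact_mod_cast hA.card_pos
  have hB0 : (0 : ℝ) < B.card := by exact_mod_cast hB.card_pos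
  have hS := summable_T α hα N f f hf hf
  have e : (∑ x ∈ A, f x) / A.card - (∑ y ∈ B, f y) / B.card =
      (∑ p ∈ A ×ˢ B, (f p.1 - f p.2)) / (A.card * B.card) := by
    rw [Finset.sum_product]
    simp only [Finset.sum_sub_distrib, Finset.sum_const, nsmul_eq_mul]
    rw [← Finset.mul_sum]
    field_simp
  have h1 : (∑ p ∈ A ×ˢ B, (f p.1 - f p.2)) ^ 2 ≤
      ((A ×ˢ B).card : ℝ) * ∑ p ∈ A ×ˢ B, (f p.1 - f p.2) ^ 2 := sq_sum_le_card_mul_sum_sq
  have h2 : ∑ p ∈ A ×ˢ B, (f p.1 - f p.2) ^ 2 ≤ D ^ α * Bf α f f := by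
    have h3 : ∑ p ∈ A ×ˢ B, (f p.1 - f p.2) ^ 2 ≤ ∑ p ∈ A ×ˢ B, D ^ α * T α f f p := by
      refine Finset.sum_le_sum fun p hp => ?_
      rw [Finset.mem_product] at hp
      unfold T
      by_cases hxy : p.1 = p.2
      · rw [hxy]; simp
      · have hpos : (0 : ℝ) < |((p.1 - p.2 : ℤ) : ℝ)| := by
          rw [abs_pos]
          exact_mod_cast sub_ne_zero.2 hxy
        have h4 : |((p.1 - p.2 : ℤ) : ℝ)| ^ α ≤ D ^ α :=
          Real.rpow_le_rpow hpos.le (hD _ hp.1 _ hp.2) (by linarith)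
        have h5 : |((p.1 - p.2 : ℤ) : ℝ)| ^ α * |((p.1 - p.2 : ℤ) : ℝ)| ^ (-α) = 1 := by
          rw [← Real.rpow_add hpos]
          simp
        have h6 : 1 ≤ D ^ α * |((p.1 - p.2 : ℤ) : ℝ)| ^ (-α) := by
          rw [← h5]
          exact mul_le_mul_of_nonneg_right h4 (by positivity)
        rw [← mul_assoc, ← pow_two]
        have := mul_le_mul_of_nonneg_right h6 (sq_nonneg (f p.1 - f p.2))
        linarith
    refine h3.trans ?_
    rw [← Finset.mul_sum]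
    have hD0 : 0 ≤ D := by
      obtain ⟨x, hx⟩ := hA
      obtain ⟨y, hy⟩ := hB
      exact (abs_nonneg _).trans (hD x hx y hy)
    apply mul_le_mul_of_nonneg_left _ (by positivity)
    exact hS.sum_le_tsum _ (fun p _ => T_nonneg α f p)
  rw [e, div_pow, Finset.card_product] at *
  push_cast at h1
  rw [div_le_iff₀ (by positivity)]
  have h7 : D ^ α / (A.card * B.card) * Bf α f f * ((A.card : ℝ) * B.card) ^ 2 =
      ((A.card : ℝ) * B.card) * (D ^ α * Bf α f f) := by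
    field_simp
  rw [h7]
  exact h1.trans (mul_le_mul_of_nonneg_left h2 (by positivity))

/-- the dyadic block -/
noncomputable def dy (j : ℕ) : Finset ℤ := Finset.Ico ((2 : ℤ) ^ j) (2 ^ (j + 1))

theorem dy_card (j : ℕ) : ((dy j).card : ℝ) = 2 ^ j := by
  unfold dy
  rw [Int.card_Ico]
  have : (2 : ℤ) ^ (j + 1) - 2 ^ j = ((2 ^ j : ℕ) : ℤ) := by
    push_cast; ring
  rw [this, Int.toNat_natCast]
  push_cast
  rfl

theorem dy_ne (j : ℕ) : (dy j).Nonempty := by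
  unfold dy
  rw [Finset.nonempty_Ico]
  exact pow_lt_pow_right₀ (by norm_num) (Nat.lt_succ_self j)

/-- the average over a dyadic block -/
noncomputable def dm (f : ℤ → ℝ) (j : ℕ) : ℝ := (∑ x ∈ dy j, f x) / (dy j).card

theorem dm_step (α : ℝ) (hα : 2 < α) (N : ℕ) (f : ℤ → ℝ)
    (hf : ∀ x : ℤ, (N : ℤ) < |x| → f x = 0) (j : ℕ) :
    |dm f j - dm f (j + 1)| ≤ (2 : ℝ) ^ α * ((2 : ℝ) ^ ((α - 2) / 2)) ^ j * √(Bf α f f) := by
  have h := avg_sub_sq_le α (by linarith) N f hf (dy j) (dy (j + 1)) (dy_ne j) (dy_ne _)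
    ((2 : ℝ) ^ (j + 2)) (by
      intro x hx y hy
      unfold dy at hx hy
      rw [Finset.mem_Ico] at hx hy
      have h1 : ((x : ℤ) : ℝ) < 2 ^ (j + 1) := by exact_mod_cast hx.2
      have h2 : (0 : ℝ) ≤ (x : ℝ) := by
        have : (0 : ℤ) ≤ x := le_trans (by positivity) hx.1
        exact_mod_cast this
      have h3 : ((y : ℤ) : ℝ) < 2 ^ (j + 1 + 1) := by exact_mod_cast hy.2
      have h4 : (0 : ℝ) ≤ (y : ℝ) := by
        have : (0 : ℤ) ≤ y := le_trans (by positivity) hy.1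
        exact_mod_cast this
      have h5 : (2 : ℝ) ^ (j + 1) ≤ 2 ^ (j + 2) := pow_le_pow_right₀ (by norm_num) (by omega)
      push_cast
      rw [abs_le]
      constructor <;> linarith)
  have hE := Bf_self_nonneg α f
  rw [dy_card, dy_card] at h
  have e1 : (((2 : ℝ) ^ (j + 2)) ^ α / (2 ^ j * 2 ^ (j + 1))) * Bf α f f ≤
      ((2 : ℝ) ^ α * ((2 : ℝ) ^ ((α - 2) / 2)) ^ j * √(Bf α f f)) ^ 2 := by
    rw [mul_pow, Real.sq_sqrt hE]
    apply mul_le_mul_of_nonneg_right _ hE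
    have e2 : ((2 : ℝ) ^ (j + 2)) ^ α = (2 : ℝ) ^ (2 * α) * ((2 : ℝ) ^ α) ^ j := by
      rw [← Real.rpow_natCast, ← Real.rpow_mul (by norm_num), ← Real.rpow_natCast,
        ← Real.rpow_mul (by norm_num), ← Real.rpow_add (by norm_num)]
      congr 1
      push_cast
      ring
    have e3 : ((2 : ℝ) ^ α * ((2 : ℝ) ^ ((α - 2) / 2)) ^ j) ^ 2 =
        (2 : ℝ) ^ (2 * α) * ((2 : ℝ) ^ (α - 2)) ^ j := by
      rw [mul_pow, ← pow_mul, mul_comm j 2, pow_mul]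
      rw [← Real.rpow_natCast ((2 : ℝ) ^ α), ← Real.rpow_natCast ((2 : ℝ) ^ ((α - 2) / 2)),
        ← Real.rpow_mul (by norm_num), ← Real.rpow_mul (by norm_num)]
      congr 2
      · push_cast; ring
      · push_cast; ring_nf
    have e4 : ((2 : ℝ) ^ (α - 2)) ^ j * (2 ^ j * 2 ^ j) = ((2 : ℝ) ^ α) ^ j := by
      rw [← mul_pow, ← mul_pow]
      congr 1
      rw [show (2 : ℝ) * 2 = 2 ^ (2 : ℝ) by norm_num, ← Real.rpow_add (by norm_num)]
      congr 1
      ring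
    rw [e2, e3, ← e4, div_le_iff₀ (by positivity), pow_succ]
    have : (0 : ℝ) < (2 : ℝ) ^ (2 * α) * ((2 : ℝ) ^ (α - 2)) ^ j * (2 ^ j * 2 ^ j) := by positivity
    nlinarith
  have h6 := h.trans e1
  have h7 : |dm f j - dm f (j + 1)| ^ 2 ≤
      ((2 : ℝ) ^ α * ((2 : ℝ) ^ ((α - 2) / 2)) ^ j * √(Bf α f f)) ^ 2 := by
    rw [sq_abs]
    unfold dm
    rw [dy_card, dy_card]
    exact h6
  exact le_of_sq_le_sq h7 (by positivity)

theorem dm_zero (α : ℝ) (hα : 2 < α) (N : ℕ) (f : ℤ → ℝ)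
    (hf : ∀ x : ℤ, (N : ℤ) < |x| → f x = 0) : |f 0 - dm f 0| ≤ √(Bf α f f) := by
  have h := avg_sub_sq_le α (by linarith) N f hf {0} (dy 0) (by simp) (dy_ne 0) 1 (by
    intro x hx y hy
    unfold dy at hy
    rw [Finset.mem_singleton] at hx
    rw [Finset.mem_Ico] at hy
    have : y = 1 := by
      have := hy.1
      have := hy.2
      norm_num at *
      omega
    rw [hx, this]
    norm_num)
  rw [dy_card] at h
  simp only [Finset.sum_singleton, Finset.card_singleton, Nat.cast_one, div_one, Real.one_rpow,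
    pow_zero, mul_one, one_mul] at h
  have hE := Bf_self_nonneg α f
  have e : (∑ y ∈ dy 0, f y) = dm f 0 := by
    unfold dm
    rw [dy_card]
    simp
  rw [e] at h
  rw [← Real.sqrt_sq_eq_abs]
  exact Real.sqrt_le_sqrt h

theorem dm_far (α : ℝ) (hα : 2 < α) (N : ℕ) (f : ℤ → ℝ)
    (hf : ∀ x : ℤ, (N : ℤ) < |x| → f x = 0) (J : ℕ) :
    |f 0 - dm f J| ≤ (1 + (2 : ℝ) ^ α * ∑ j ∈ range J, ((2 : ℝ) ^ ((α - 2) / 2)) ^ j) *
      √(Bf α f f) := by
  induction J with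
  | zero =>
    simp only [Finset.range_zero, Finset.sum_empty, mul_zero, add_zero, one_mul]
    exact dm_zero α hα N f hf
  | succ J ih =>
    rw [Finset.sum_range_succ]
    have h := dm_step α hα N f hf J
    have h2 : |f 0 - dm f (J + 1)| ≤ |f 0 - dm f J| + |dm f J - dm f (J + 1)| := by
      have := abs_add_le (f 0 - dm f J) (dm f J - dm f (J + 1))
      rwa [sub_add_sub_cancel] at this
    nlinarith

theorem poincare (α : ℝ) (hα : 2 < α) :
    ∃ C : ℝ, 0 < C ∧ ∀ (N : ℕ) (f : ℤ → ℝ), (∀ x : ℤ, ((N + 1 : ℕ) : ℤ) < |x| → f x = 0) →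
      f 0 ^ 2 ≤ C * ((N : ℝ) + 1) ^ (α - 2) * Bf α f f := by
  set ρ : ℝ := (2 : ℝ) ^ ((α - 2) / 2) with hρ
  have hρ1 : 1 < ρ := by
    rw [hρ]
    exact Real.one_lt_rpow (by norm_num) (by linarith)
  set K : ℝ := 1 + (2 : ℝ) ^ α / (ρ - 1) with hK
  have hρ0 : 0 < ρ - 1 := by linarith
  have hKpos : 0 < K := by positivity
  refine ⟨K ^ 2 * 2 ^ (α - 2), by positivity, fun N f hf => ?_⟩
  set J : ℕ := Nat.log 2 (N + 1) + 1 with hJ
  have hJ1 : N + 1 < 2 ^ J := Nat.lt_pow_succ_log_self (by norm_num) _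
  have hJ2 : 2 ^ J ≤ 2 * (N + 1) := by
    rw [hJ, pow_succ]
    have := Nat.pow_log_le_self 2 (show N + 1 ≠ 0 by omega)
    omega
  have h := dm_far α hα (N + 1) f hf J
  have hz : dm f J = 0 := by
    unfold dm
    rw [Finset.sum_eq_zero, zero_div]
    intro x hx
    unfold dy at hx
    rw [Finset.mem_Ico] at hx
    apply hf
    have h1 : ((N + 1 : ℕ) : ℤ) < 2 ^ J := by exact_mod_cast hJ1
    have h2 := hx.1
    rw [lt_abs]
    left
    omega
  rw [hz, sub_zero, geom_sum_eq hρ1.ne'] at h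
  have h3 : 1 + (2 : ℝ) ^ α * ((ρ ^ J - 1) / (ρ - 1)) ≤ K * ρ ^ J := by
    have h4 : (1 : ℝ) ≤ ρ ^ J := one_le_pow₀ hρ1.le
    have h5 : (ρ ^ J - 1) / (ρ - 1) ≤ ρ ^ J / (ρ - 1) :=
      div_le_div_of_nonneg_right (by linarith) hρ0.le
    have h6 := mul_le_mul_of_nonneg_left h5 (show (0 : ℝ) ≤ (2 : ℝ) ^ α by positivity)
    have h7 : K * ρ ^ J = ρ ^ J + (2 : ℝ) ^ α * (ρ ^ J / (ρ - 1)) := by
      rw [hK]
      ring
    rw [h7]
    linarith
  have hE := Bf_self_nonneg α f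
  have h8 : |f 0| ≤ K * ρ ^ J * √(Bf α f f) :=
    h.trans (mul_le_mul_of_nonneg_right h3 (Real.sqrt_nonneg _))
  have h9 : f 0 ^ 2 ≤ (K * ρ ^ J * √(Bf α f f)) ^ 2 := by
    rw [← sq_abs (f 0)]
    exact pow_le_pow_left₀ (abs_nonneg _) h8 2
  rw [mul_pow, mul_pow, Real.sq_sqrt hE] at h9
  refine h9.trans (mul_le_mul_of_nonneg_right ?_ hE)
  rw [mul_assoc]
  apply mul_le_mul_of_nonneg_left _ (by positivity)
  have e : (ρ ^ J) ^ 2 = ((2 : ℝ) ^ J) ^ (α - 2) := by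
    rw [hρ, ← Real.rpow_natCast, ← Real.rpow_natCast, ← Real.rpow_mul (by positivity),
      ← Real.rpow_mul (by positivity), ← Real.rpow_natCast (2 : ℝ), ← Real.rpow_mul (by norm_num)]
    congr 1
    push_cast
    ring
  rw [e, ← Real.mul_rpow (by norm_num) (by positivity)]
  apply Real.rpow_le_rpow (by positivity) _ (by linarith)
  exact_mod_cast hJ2

end Run7.h934
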