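import Pool.Agent.Run7.h934.Weight

set_option autoImplicit false

/-!
# The lower bound with the right dependence on the temperature (MP_57c4e5_pr)

The shifts are the indicators of the blocks `[-iL, iL]`, with a large spacing `L = L(β)`.
-/

namespace Run7.h934

open Real Finset

/-- the interactions of spaced blocks -/
theorem spaced_le (α : ℝ) (hα : 2 < α) (hα3 : α < 3) :
    ∃ C K : ℝ, 0 < C ∧ 0 < K ∧ ∀ (β : ℝ), 0 < β → ∀ L : ℕ, 1 ≤ L →
      2 * β * C * (L : ℝ) ^ (-(α - 2)) ≤ 1 → ∀ N M : ℕ, M * L ≤ N →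
      ∑ i ∈ range (M + 1), ∑ j ∈ range (M + 1),
      (exp (2 * β * Bz α N (blkN N (i * L)) (blkN N (j * L))) - 1) ≤
        ((M : ℝ) + 1) * exp (2 * β * C) +
          β * K * ((L : ℝ) ^ (-(α - 2)) * ((M : ℝ) + 1) ^ (4 - α)) := by
  set C : ℝ := 4 * (1 + 1 / (α - 2)) with hC
  have hCpos : 0 < C := by
    have : 0 < α - 2 := by linarith
    positivity
  have h3α : 0 < 3 - α := by linarith
  refine ⟨C, 24 * C * (1 + 1 / (3 - α)), hCpos, by positivity, ?_⟩
  intro β hβ L hL hLβ N M hML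
  have hL0 : (0 : ℝ) < L := by exact_mod_cast hL
  set ℓ : ℝ := (L : ℝ) ^ (-(α - 2)) with hℓ
  have hℓ0 : 0 < ℓ := by positivity
  -- the pair estimate
  have pair : ∀ i j : ℕ, i < j → j ≤ M →
      exp (2 * β * Bz α N (blkN N (i * L)) (blkN N (j * L))) - 1 ≤
        12 * β * C * ℓ * (((j - i : ℕ) : ℝ) + 1) ^ (-(α - 2)) := by
    intro i j hij hj
    have hjL : j * L ≤ N := (Nat.mul_le_mul_right L hj).trans hML
    have hiL : i * L ≤ j * L := Nat.mul_le_mul_right L hij.le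
    have h1 := Bz_blk_nonneg_le α hα N (i * L) (j * L) (hiL.trans hjL) hjL hiL
    rw [show (2 : ℝ) - α = -(α - 2) by ring, ← mul_assoc, ← hC] at h1
    set d : ℕ := j - i with hd
    have hd1 : 1 ≤ d := by omega
    have hd0 : (0 : ℝ) < d := by exact_mod_cast hd1
    have e1 : j * L - i * L = d * L := by rw [hd, Nat.sub_mul]
    rw [e1] at h1
    have h2 : (((d * L : ℕ) : ℝ) + 1) ^ (-(α - 2)) ≤ ((d : ℝ) * L) ^ (-(α - 2)) := by
      apply Real.rpow_le_rpow_of_nonpos (by positivity) (by push_cast; linarith) (by linarith)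
    have h3 : ((d : ℝ) * L) ^ (-(α - 2)) = (d : ℝ) ^ (-(α - 2)) * ℓ := by
      rw [Real.mul_rpow hd0.le hL0.le]
    set u : ℝ := 2 * β * C * ((d : ℝ) ^ (-(α - 2)) * ℓ) with hu
    have hu0 : 0 ≤ u := by positivity
    have hdle : (d : ℝ) ^ (-(α - 2)) ≤ 1 := by
      apply Real.rpow_le_one_of_one_le_of_nonpos
      · exact_mod_cast hd1
      · linarith
    have hu1 : u ≤ 1 := by
      refine le_trans ?_ hLβ
      rw [hu]
      apply mul_le_mul_of_nonneg_left _ (by positivity)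
      nlinarith
    have h4 : 2 * β * Bz α N (blkN N (i * L)) (blkN N (j * L)) ≤ u := by
      rw [hu, ← h3]
      have := h1.trans (mul_le_mul_of_nonneg_left h2 hCpos.le)
      nlinarith
    have h5 : exp (2 * β * Bz α N (blkN N (i * L)) (blkN N (j * L))) ≤ exp u := exp_le_exp.2 h4
    have h6 : exp u - 1 ≤ 3 * u := by
      have a1 : exp (-u) ≥ 1 - u := by linarith [add_one_le_exp (-u)]
      have a2 : exp u * exp (-u) = 1 := by rw [← exp_add]; simp
      have a3 : exp u - 1 ≤ u * exp u := by nlinarith [exp_pos u]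
      have a4 : exp u ≤ exp 1 := exp_le_exp.2 hu1
      have a5 : exp 1 < 3 := by linarith [Real.exp_one_lt_d9]
      nlinarith
    have h7 : (d : ℝ) ^ (-(α - 2)) ≤ 2 * ((d : ℝ) + 1) ^ (-(α - 2)) := by
      have b1 : ((d : ℝ) + 1) / 2 ≤ d := by
        have : (1 : ℝ) ≤ d := by exact_mod_cast hd1
        linarith
      have b2 : (d : ℝ) ^ (-(α - 2)) ≤ (((d : ℝ) + 1) / 2) ^ (-(α - 2)) :=
        Real.rpow_le_rpow_of_nonpos (by positivity) b1 (by linarith)
      refine b2.trans ?_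
      rw [Real.div_rpow (by positivity) (by norm_num), Real.rpow_neg (by norm_num : (0:ℝ) ≤ 2),
        div_inv_eq_mul, mul_comm]
      apply mul_le_mul_of_nonneg_right _ (by positivity)
      calc (2 : ℝ) ^ (α - 2) ≤ 2 ^ (1 : ℝ) :=
            Real.rpow_le_rpow_of_exponent_le (by norm_num) (by linarith)
        _ = 2 := Real.rpow_one 2
    have h8 : 3 * u ≤ 12 * β * C * ℓ * ((d : ℝ) + 1) ^ (-(α - 2)) := by
      rw [hu]
      have : 0 ≤ 6 * β * C * ℓ := by positivity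
      nlinarith [mul_le_mul_of_nonneg_left h7 this]
    linarith
  have diag : ∀ i : ℕ, i ≤ M →
      exp (2 * β * Bz α N (blkN N (i * L)) (blkN N (i * L))) - 1 ≤ exp (2 * β * C) := by
    intro i hi
    have hiL : i * L ≤ N := (Nat.mul_le_mul_right L hi).trans hML
    have h1 := Bz_blk_nonneg_le α hα N (i * L) (i * L) hiL hiL le_rfl
    rw [show (2 : ℝ) - α = -(α - 2) by ring, ← mul_assoc, ← hC, Nat.sub_self] at h1
    simp only [Nat.cast_zero, zero_add, Real.one_rpow, mul_one] at h1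
    have h2 : exp (2 * β * Bz α N (blkN N (i * L)) (blkN N (i * L))) ≤ exp (2 * β * C) := by
      apply exp_le_exp.2
      nlinarith
    linarith
  set D : ℝ := 12 * β * C * ℓ with hD
  have hDpos : 0 < D := by positivity
  have hDy : ∀ n : ℕ, 0 ≤ D * (((n : ℕ) : ℝ) + 1) ^ (-(α - 2)) := fun n => by positivity
  have hle : ∀ r ∈ range (M + 1), ∀ s ∈ range (M + 1),
      exp (2 * β * Bz α N (blkN N (r * L)) (blkN N (s * L))) - 1 ≤
      (if s = r then exp (2 * β * C) else 0) +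
      ((if r ≤ s then D * (((s - r : ℕ) : ℝ) + 1) ^ (-(α - 2)) else 0) +
      (if s ≤ r then D * (((r - s : ℕ) : ℝ) + 1) ^ (-(α - 2)) else 0)) := by
    intro r hr s hs
    rw [Finset.mem_range] at hr hs
    have p1 : (0 : ℝ) ≤ (if s ≤ r then D * (((r - s : ℕ) : ℝ) + 1) ^ (-(α - 2)) else 0) := by
      split_ifs
      · exact hDy _
      · exact le_rfl
    have p2 : (0 : ℝ) ≤ (if r ≤ s then D * (((s - r : ℕ) : ℝ) + 1) ^ (-(α - 2)) else 0) := by
      split_ifs
      · exact hDy _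
      · exact le_rfl
    rcases lt_trichotomy r s with h | h | h
    · have h1 := pair r s h (by omega)
      rw [if_neg (by omega : ¬ s = r)]
      rw [if_pos h.le]
      linarith
    · subst h
      have h1 := diag r (by omega)
      rw [if_pos rfl]
      linarith
    · have h1 := pair s r h (by omega)
      rw [Bz_comm] at h1
      rw [if_neg (by omega : ¬ s = r), if_pos h.le]
      linarith
  have hrow : ∀ r ∈ range (M + 1),
      ∑ s ∈ range (M + 1), (if r ≤ s then D * (((s - r : ℕ) : ℝ) + 1) ^ (-(α - 2)) else 0) ≤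
        D * ((1 + 1 / (3 - α)) * ((M : ℝ) + 1) ^ (3 - α)) := by
    intro r hr
    rw [Finset.mem_range] at hr
    have e1 : ∑ s ∈ range (M + 1), (if r ≤ s then D * (((s - r : ℕ) : ℝ) + 1) ^ (-(α - 2)) else 0) =
        ∑ s ∈ Finset.Ico r (M + 1), D * (((s - r : ℕ) : ℝ) + 1) ^ (-(α - 2)) := by
      rw [← Finset.sum_filter]
      apply Finset.sum_congr _ (fun _ _ => rfl)
      ext s
      simp only [Finset.mem_filter, Finset.mem_range, Finset.mem_Ico]
      omega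
    rw [e1, Finset.sum_Ico_eq_sum_range]
    have e2 : ∑ k ∈ range (M + 1 - r), D * (((r + k - r : ℕ) : ℝ) + 1) ^ (-(α - 2)) =
        ∑ k ∈ range (M + 1 - r), D * ((k : ℝ) + 1) ^ (-(α - 2)) := by
      refine Finset.sum_congr rfl fun k _ => ?_
      rw [Nat.add_sub_cancel_left]
    rw [e2]
    have e3 : ∑ k ∈ range (M + 1 - r), D * ((k : ℝ) + 1) ^ (-(α - 2)) ≤
        ∑ k ∈ range (M + 1), D * ((k : ℝ) + 1) ^ (-(α - 2)) := by
      apply Finset.sum_le_sum_of_subset_of_nonneg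
      · intro k hk
        rw [Finset.mem_range] at hk ⊢
        omega
      · intro k _ _
        exact hDy k
    refine e3.trans ?_
    rw [← Finset.mul_sum]
    apply mul_le_mul_of_nonneg_left _ hDpos.le
    have h := sum_pow_le (α - 2) (by linarith) (by linarith) M
    rw [show 1 - (α - 2) = 3 - α by ring] at h
    exact h
  have hd : ∀ r ∈ range (M + 1), ∑ s ∈ range (M + 1),
      (if s = r then exp (2 * β * C) else 0) = exp (2 * β * C) := by
    intro r hr
    rw [Finset.sum_ite_eq']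
    rw [if_pos hr]
  calc ∑ r ∈ range (M + 1), ∑ s ∈ range (M + 1),
      (exp (2 * β * Bz α N (blkN N (r * L)) (blkN N (s * L))) - 1)
      ≤ ∑ r ∈ range (M + 1), ∑ s ∈ range (M + 1),
        ((if s = r then exp (2 * β * C) else 0) +
        ((if r ≤ s then D * (((s - r : ℕ) : ℝ) + 1) ^ (-(α - 2)) else 0) +
      (if s ≤ r then D * (((r - s : ℕ) : ℝ) + 1) ^ (-(α - 2)) else 0))) :=
        Finset.sum_le_sum fun r hr => Finset.sum_le_sum fun s hs => hle r hr s hs
    _ = ∑ r ∈ range (M + 1), ∑ s ∈ range (M + 1),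
        (if s = r then exp (2 * β * C) else 0) +
        (∑ r ∈ range (M + 1), ∑ s ∈ range (M + 1),
        (if r ≤ s then D * (((s - r : ℕ) : ℝ) + 1) ^ (-(α - 2)) else 0) +
        ∑ r ∈ range (M + 1), ∑ s ∈ range (M + 1),
        (if s ≤ r then D * (((r - s : ℕ) : ℝ) + 1) ^ (-(α - 2)) else 0)) := by
        simp only [Finset.sum_add_distrib]
    _ ≤ ((M : ℝ) + 1) * exp (2 * β * C) +
        (∑ r ∈ range (M + 1), D * ((1 + 1 / (3 - α)) * ((M : ℝ) + 1) ^ (3 - α)) +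
        ∑ s ∈ range (M + 1), D * ((1 + 1 / (3 - α)) * ((M : ℝ) + 1) ^ (3 - α))) := by
        refine add_le_add ?_ (add_le_add (Finset.sum_le_sum hrow) ?_)
        · rw [Finset.sum_congr rfl hd, Finset.sum_const, Finset.card_range, nsmul_eq_mul]
          push_cast
          exact le_rfl
        · refine (le_of_eq Finset.sum_comm).trans ?_
          exact Finset.sum_le_sum hrow
    _ = ((M : ℝ) + 1) * exp (2 * β * C) +
        2 * (D * (1 + 1 / (3 - α))) * (((M : ℝ) + 1) * ((M : ℝ) + 1) ^ (3 - α)) := by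
        rw [Finset.sum_const, Finset.card_range, nsmul_eq_mul]
        push_cast
        ring
    _ = ((M : ℝ) + 1) * exp (2 * β * C) +
        β * (24 * C * (1 + 1 / (3 - α))) * (ℓ * ((M : ℝ) + 1) ^ (4 - α)) := by
        have hN : (0 : ℝ) < (M : ℝ) + 1 := by positivity
        rw [← Real.rpow_one_add' hN.le (by linarith), hD]
        rw [show 1 + (3 - α) = 4 - α by ring]
        ring

/-- **The lower bound with the right order in `β`.** -/
theorem variance_uniform (α : ℝ) (hα : 2 < α) (hα3 : α < 3) :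
    ∃ c : ℝ, 0 < c ∧ ∀ β : ℝ, 0 < β → ∃ N₀ : ℕ, ∀ N : ℕ, N₀ ≤ N →
      c / β * (N : ℝ) ^ (α - 2) ≤
      (∑' φ : KN N, ((φ.1 0 : ℤ) : ℝ) ^ 2 * exp (-β * Bz α N φ φ)) /
        (∑' φ : KN N, exp (-β * Bz α N φ φ)) := by
  obtain ⟨C, K, hC, hK, hsp⟩ := spaced_le α hα hα3
  refine ⟨1 / (2 * K), by positivity, fun β hβ => ?_⟩
  -- the spacing
  obtain ⟨L, hL1, hL⟩ : ∃ L : ℕ, 1 ≤ L ∧ 2 * β * C * (L : ℝ) ^ (-(α - 2)) ≤ 1 := by
    have h1 : Filter.Tendsto (fun L : ℕ => 2 * β * C * (L : ℝ) ^ (-(α - 2))) Filter.atTop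
        (nhds (2 * β * C * 0)) :=
      ((tendsto_rpow_neg_atTop (by linarith : 0 < α - 2)).comp
        tendsto_natCast_atTop_atTop).const_mul _
    rw [mul_zero] at h1
    have h2 := (h1.eventually (eventually_le_nhds (by norm_num : (0 : ℝ) < 1))).and
      (Filter.eventually_ge_atTop 1)
    obtain ⟨L, hL⟩ := h2.exists
    exact ⟨L, hL.2, hL.1⟩
  have hL0 : (0 : ℝ) < L := by exact_mod_cast hL1
  -- the size
  obtain ⟨N₀, hN₀⟩ : ∃ N₀ : ℕ, ∀ N : ℕ, N₀ ≤ N → 1 ≤ N ∧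
      (L : ℝ) * exp (2 * β * C) * (N : ℝ) ^ (-(3 - α)) ≤ β * K := by
    have h1 : Filter.Tendsto (fun N : ℕ => (L : ℝ) * exp (2 * β * C) * (N : ℝ) ^ (-(3 - α)))
        Filter.atTop (nhds ((L : ℝ) * exp (2 * β * C) * 0)) :=
      ((tendsto_rpow_neg_atTop (by linarith : 0 < 3 - α)).comp
        tendsto_natCast_atTop_atTop).const_mul _
    rw [mul_zero] at h1
    have h2 := (h1.eventually (eventually_le_nhds (by positivity : (0 : ℝ) < β * K))).and
      (Filter.eventually_ge_atTop 1)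
    obtain ⟨N₀, hN₀⟩ := Filter.eventually_atTop.1 h2
    exact ⟨N₀, fun N hN => ⟨(hN₀ N hN).2, (hN₀ N hN).1⟩⟩
  refine ⟨N₀, fun N hN => ?_⟩
  obtain ⟨hN1, hN2⟩ := hN₀ N hN
  have hNpos : (0 : ℝ) < N := by exact_mod_cast hN1
  set M : ℕ := N / L with hM
  have hML : M * L ≤ N := Nat.div_mul_le_self N L
  have hML2 : (N : ℝ) ≤ L * ((M : ℝ) + 1) := by
    have := Nat.lt_mul_div_succ N (show 0 < L by omega)
    rw [← hM] at this
    have h2 : N ≤ L * (M + 1) := this.le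
    exact_mod_cast h2
  have hM0 : (0 : ℝ) < (M : ℝ) + 1 := by positivity
  have hsum := hsp β hβ L hL1 hL N M hML
  set Qv : ℝ := ((M : ℝ) + 1) * exp (2 * β * C) +
          β * K * ((L : ℝ) ^ (-(α - 2)) * ((M : ℝ) + 1) ^ (4 - α)) with hQ
  have hQpos : 0 < Qv := by positivity
  have hS := summable_aux α β hα hβ N
  have hw : Summable fun φ : KN N => exp (-β * Bz α N φ φ) := by
    refine Summable.of_nonneg_of_le (fun φ => (exp_pos _).le) (fun φ => ?_) hS
    have : 0 ≤ ((φ.1 0 : ℤ) : ℝ) ^ 2 := sq_nonneg _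
    nlinarith [exp_pos (-β * Bz α N φ φ)]
  have hw2 : Summable fun φ : KN N => ((φ.1 0 : ℤ) : ℝ) ^ 2 * exp (-β * Bz α N φ φ) := by
    refine Summable.of_nonneg_of_le (fun φ => by positivity) (fun φ => ?_) hS
    nlinarith [exp_pos (-β * Bz α N φ φ)]
  have hpos : 0 < ∑' φ : KN N, exp (-β * Bz α N φ φ) :=
    hw.tsum_pos (fun φ => (exp_pos _).le) 0 (exp_pos _)
  have key := abstract_bound β (Bz α N) (Bz_comm α N)
    (fun x y z => by
      have := Bf_add α (by linarith) N (fun t => ((x.1 t : ℤ) : ℝ)) (fun t => ((y.1 t : ℤ) : ℝ))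
        (fun t => ((z.1 t : ℤ) : ℝ)) (KN_supp N x) (KN_supp N y) (KN_supp N z)
      unfold Bz
      rw [← this]
      congr 1
      funext t
      simp)
    (fun φ => ((φ.1 0 : ℤ) : ℝ)) (fun x y => by simp) hw hw2 (range (M + 1))
    (fun i => blkN N (i * L)) (fun r _ => by simp [blkN, blkZ]; positivity)
    Qv hQpos hsum
  rw [le_div_iff₀ hpos]
  refine le_trans (mul_le_mul_of_nonneg_right ?_ hpos.le) key
  rw [Finset.card_range]
  push_cast
  rw [le_div_iff₀ hQpos]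
  -- `Q (c / β) N^(α-2) ≤ (M+1)^2`
  have f1 : (N : ℝ) ^ (α - 2) * ((L : ℝ) ^ (-(α - 2)) * ((M : ℝ) + 1) ^ (4 - α)) ≤
      ((M : ℝ) + 1) ^ 2 := by
    have g1 : (N : ℝ) ^ (α - 2) ≤ (L : ℝ) ^ (α - 2) * ((M : ℝ) + 1) ^ (α - 2) := by
      rw [← Real.mul_rpow hL0.le hM0.le]
      exact Real.rpow_le_rpow hNpos.le hML2 (by linarith)
    have g2 := mul_le_mul_of_nonneg_right g1
      (show 0 ≤ (L : ℝ) ^ (-(α - 2)) * ((M : ℝ) + 1) ^ (4 - α) by positivity)
    refine g2.trans (le_of_eq ?_)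
    have g3 : (L : ℝ) ^ (α - 2) * (L : ℝ) ^ (-(α - 2)) = 1 := by
      rw [← Real.rpow_add hL0]; simp
    have g4 : ((M : ℝ) + 1) ^ (α - 2) * ((M : ℝ) + 1) ^ (4 - α) = ((M : ℝ) + 1) ^ 2 := by
      rw [← Real.rpow_add hM0, ← Real.rpow_natCast]
      congr 1
      push_cast
      ring
    calc (L : ℝ) ^ (α - 2) * ((M : ℝ) + 1) ^ (α - 2) *
          ((L : ℝ) ^ (-(α - 2)) * ((M : ℝ) + 1) ^ (4 - α))
        = ((L : ℝ) ^ (α - 2) * (L : ℝ) ^ (-(α - 2))) *
          (((M : ℝ) + 1) ^ (α - 2) * ((M : ℝ) + 1) ^ (4 - α)) := by ring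
      _ = ((M : ℝ) + 1) ^ 2 := by rw [g3, g4, one_mul]
  have f2 : (N : ℝ) ^ (α - 2) * (((M : ℝ) + 1) * exp (2 * β * C)) ≤
      β * K * ((M : ℝ) + 1) ^ 2 := by
    have g1 : (N : ℝ) ^ (α - 2) = (N : ℝ) ^ (-(3 - α)) * N := by
      rw [← Real.rpow_add_one hNpos.ne']
      congr 1
      ring
    have g2 : (N : ℝ) ^ (α - 2) * exp (2 * β * C) ≤ β * K * ((M : ℝ) + 1) := by
      rw [g1]
      have g3 : (N : ℝ) ^ (-(3 - α)) * N ≤ (N : ℝ) ^ (-(3 - α)) * (L * ((M : ℝ) + 1)) :=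
        mul_le_mul_of_nonneg_left hML2 (by positivity)
      have g4 := mul_le_mul_of_nonneg_right g3 (exp_pos (2 * β * C)).le
      have g5 := mul_le_mul_of_nonneg_right hN2 hM0.le
      refine g4.trans (le_trans (le_of_eq ?_) g5)
      ring
    have g6 := mul_le_mul_of_nonneg_right g2 hM0.le
    refine le_trans (le_of_eq ?_) (g6.trans (le_of_eq ?_)) <;> ring
  have f3 : (N : ℝ) ^ (α - 2) * Qv ≤ 2 * (β * K) * ((M : ℝ) + 1) ^ 2 := by
    rw [hQ, mul_add]
    have g1 := mul_le_mul_of_nonneg_left f1 (show 0 ≤ β * K by positivity)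
    have e : (N : ℝ) ^ (α - 2) * (β * K * ((L : ℝ) ^ (-(α - 2)) * ((M : ℝ) + 1) ^ (4 - α))) =
      β * K * ((N : ℝ) ^ (α - 2) * ((L : ℝ) ^ (-(α - 2)) * ((M : ℝ) + 1) ^ (4 - α))) := by ring
    rw [e]
    linarith
  have f4 : 1 / (2 * K) / β * (N : ℝ) ^ (α - 2) * Qv =
      1 / (2 * (β * K)) * ((N : ℝ) ^ (α - 2) * Qv) := by
    field_simp
  rw [f4]
  have f5 := mul_le_mul_of_nonneg_left f3 (show 0 ≤ 1 / (2 * (β * K)) by positivity)
  refine f5.trans (le_of_eq ?_)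
  field_simp

end Run7.h934
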