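import Mathlib

set_option autoImplicit false

/-!
# Comparison of lattice Gaussian weights with the real Gaussian (MP_57c4e5_pr)

For a lattice `X` with a positive form `B` and an additive `f` with `f x ^ 2 ≤ C * B x x`, the
second moment of `f` under the weight `exp (-β * B x x)` is at most `C / (2 * β)`.
-/

namespace Run7.h934

open Real Finset

/-- summation over pairs in the same class modulo `2 X` -/
theorem parity_sum {X Q : Type*} [AddCommGroup X] [Fintype Q] [DecidableEq Q] (q : X → Q)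
    (hq : ∀ a b : X, q a = q b ↔ ∃ z : X, a = b + z + z) (h2 : ∀ z : X, z + z = 0 → z = 0)
    (F G : X → ℝ) (hF : Summable F) (hG : Summable G) (hF0 : ∀ x, 0 ≤ F x) (hG0 : ∀ x, 0 ≤ G x) :
    ∑' p : X × X, F (p.1 + p.2) * G (p.1 - p.2) =
      ∑ c : Q, (∑' a : X, if q a = c then F a else 0) * (∑' b : X, if q b = c then G b else 0) := by
  classical
  have hFc : ∀ c, Summable fun a : X => if q a = c then F a else 0 := fun c =>
    Summable.of_nonneg_of_le (fun a => by split_ifs <;> simp [hF0]) (fun a => by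
      split_ifs
      · exact le_rfl
      · exact hF0 a) hF
  have hGc : ∀ c, Summable fun a : X => if q a = c then G a else 0 := fun c =>
    Summable.of_nonneg_of_le (fun a => by split_ifs <;> simp [hG0]) (fun a => by
      split_ifs
      · exact le_rfl
      · exact hG0 a) hG
  have hprod : ∀ c, Summable fun p : X × X =>
      (if q p.1 = c then F p.1 else 0) * (if q p.2 = c then G p.2 else 0) := fun c =>
    (hFc c).mul_of_nonneg (hGc c) (fun a => by
      simp only [Pi.zero_apply]; split_ifs <;> simp [hF0]) (fun a => by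
      simp only [Pi.zero_apply]; split_ifs <;> simp [hG0])
  have e1 : ∀ c, (∑' a : X, if q a = c then F a else 0) * (∑' b : X, if q b = c then G b else 0) =
      ∑' p : X × X, (if q p.1 = c then F p.1 else 0) * (if q p.2 = c then G p.2 else 0) :=
    fun c => (hFc c).tsum_mul_tsum (hGc c) (hprod c)
  simp only [e1]
  rw [← Summable.tsum_finsetSum (fun c _ => hprod c)]
  have e2 : ∀ p : X × X, ∑ c : Q, (if q p.1 = c then F p.1 else 0) * (if q p.2 = c then G p.2 else 0) =
      if q p.1 = q p.2 then F p.1 * G p.2 else 0 := by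
    intro p
    rw [Finset.sum_eq_single (q p.1)]
    · rw [if_pos rfl]
      by_cases h : q p.1 = q p.2
      · rw [if_pos h.symm, if_pos h]
      · rw [if_neg (fun h' => h h'.symm), if_neg h, mul_zero]
    · intro c _ hc
      rw [if_neg (fun h => hc h.symm), zero_mul]
    · intro h
      exact absurd (Finset.mem_univ _) h
  simp only [e2]
  set i : X × X → X × X := fun p => (p.1 + p.2, p.1 - p.2) with hi
  have hinj : Function.Injective i := by
    intro p p' h
    simp only [hi, Prod.mk.injEq] at h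
    obtain ⟨h1, h3⟩ := h
    have h4 : (p.1 - p'.1) + (p.1 - p'.1) = 0 := by
      have : (p.1 - p'.1) + (p.1 - p'.1) = ((p.1 + p.2) - (p'.1 + p'.2)) +
        ((p.1 - p.2) - (p'.1 - p'.2)) := by abel
      rw [this, h1, h3]
      simp
    have h5 := sub_eq_zero.1 (h2 _ h4)
    refine Prod.ext h5 ?_
    rw [h5] at h1
    exact add_left_cancel h1
  rw [← hinj.tsum_eq (f := fun p : X × X => if q p.1 = q p.2 then F p.1 * G p.2 else 0)]
  · refine tsum_congr fun p => ?_
    simp only [hi]
    rw [if_pos]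
    rw [hq]
    exact ⟨p.2, by abel⟩
  · intro p hp
    rw [Function.mem_support] at hp
    have h : q p.1 = q p.2 := by
      by_contra h
      exact hp (if_neg h)
    obtain ⟨z, hz⟩ := (hq _ _).1 h
    refine ⟨(p.2 + z, z), ?_⟩
    simp only [hi]
    refine Prod.ext ?_ ?_
    · simp only; exact hz.symm
    · simp only; abel

theorem quartic {X Q : Type*} [AddCommGroup X] [Fintype Q] [DecidableEq Q] (q : X → Q)
    (hq : ∀ a b : X, q a = q b ↔ ∃ z : X, a = b + z + z) (h2 : ∀ z : X, z + z = 0 → z = 0)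
    (β : ℝ) (B : X → X → ℝ)
    (hsym : ∀ x y, B x y = B y x) (hadd : ∀ x y z, B (x + y) z = B x z + B y z)
    (f : X → ℝ) (hf : ∀ x y, f (x + y) = f x + f y)
    (hw : ∀ t τ : ℝ, 0 < τ → Summable fun x => exp (t * f x - τ * B x x)) (hβ : 0 < β) (t : ℝ) :
    (∑' x, exp (t * f x - β * B x x)) ^ 4 ≤
      (∑' x, exp (2 * t * f x - β * B x x)) * (∑' x, exp (0 * f x - β * B x x)) ^ 3 := by
  classical
  have hadd2 : ∀ x y z, B z (x + y) = B z x + B z y := by
    intro x y z; rw [hsym, hadd, hsym x z, hsym y z]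
  have hneg : ∀ x y, B (-x) y = - B x y := by
    intro x y
    have h0 : B 0 y = 0 := by
      have := hadd 0 0 y
      simp only [add_zero] at this
      linarith
    have := hadd x (-x) y
    rw [add_neg_cancel, h0] at this
    linarith
  have hneg2 : ∀ x y, B x (-y) = - B x y := by
    intro x y; rw [hsym, hneg, hsym]
  have hsub : ∀ x k, B (x - k) (x - k) = B x x - 2 * B x k + B k k := by
    intro x k
    rw [sub_eq_add_neg, hadd, hadd2, hadd2, hneg, hneg, hneg2, hneg2, hsym k x]
    ring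
  have haddd : ∀ x k, B (x + k) (x + k) = B x x + 2 * B x k + B k k := by
    intro x k
    rw [hadd, hadd2, hadd2, hsym k x]
    ring
  have hf0 : ∀ x y, f (x - y) = f x - f y := by
    intro x y
    have := hf (x - y) y
    rw [sub_add_cancel] at this
    linarith
  set Z : ℝ → ℝ := fun t => ∑' x, exp (t * f x - β * B x x) with hZ
  have hZpos : ∀ t, 0 < Z t := fun t =>
    (hw t β hβ).tsum_pos (fun x => (exp_pos _).le) 0 (exp_pos _)
  -- the product identity
  have key : ∀ t s : ℝ, Z (t + s) * Z (t - s) =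
      ∑ c : Q, (∑' a : X, if q a = c then exp (t * f a - β / 2 * B a a) else 0) *
        (∑' a : X, if q a = c then exp (s * f a - β / 2 * B a a) else 0) := by
    intro t s
    rw [← parity_sum q hq h2 (fun a => exp (t * f a - β / 2 * B a a))
      (fun a => exp (s * f a - β / 2 * B a a)) (hw t (β / 2) (by linarith))
      (hw s (β / 2) (by linarith)) (fun x => (exp_pos _).le) (fun x => (exp_pos _).le)]
    have hp := (hw (t + s) β hβ).mul_of_nonneg (hw (t - s) β hβ) (fun x => (exp_pos _).le)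
      (fun x => (exp_pos _).le)
    rw [hZ]
    simp only
    rw [(hw (t + s) β hβ).tsum_mul_tsum (hw (t - s) β hβ) hp]
    refine tsum_congr fun p => ?_
    rw [← exp_add, ← exp_add, hf, hf0, hsub, haddd]
    congr 1
    ring
  have k1 := key t 0
  have k2 := key t t
  have k3 := key 0 0
  rw [add_zero, sub_zero] at k1
  rw [← two_mul, sub_self] at k2
  rw [add_zero, sub_zero] at k3
  have cs := Finset.sum_mul_sq_le_sq_mul_sq (Finset.univ : Finset Q)
    (fun c => ∑' a : X, if q a = c then exp (t * f a - β / 2 * B a a) else 0)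
    (fun c => ∑' a : X, if q a = c then exp (0 * f a - β / 2 * B a a) else 0)
  simp only [pow_two] at cs
  rw [← k1, ← k2, ← k3] at cs
  have e1 : Z t ^ 4 = (Z t * Z t) * (Z t * Z t) := by ring
  have e2 : Z (2 * t) * Z 0 ^ 3 = (Z (2 * t) * Z 0) * (Z 0 * Z 0) := by ring
  rw [e1, e2]
  exact cs

/-- the exponential moment bound -/
theorem mgf_le {X Q : Type*} [AddCommGroup X] [Fintype Q] [DecidableEq Q] (q : X → Q)
    (hq : ∀ a b : X, q a = q b ↔ ∃ z : X, a = b + z + z) (h2 : ∀ z : X, z + z = 0 → z = 0)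
    (β : ℝ) (B : X → X → ℝ)
    (hsym : ∀ x y, B x y = B y x) (hadd : ∀ x y z, B (x + y) z = B x z + B y z)
    (f : X → ℝ) (hf : ∀ x y, f (x + y) = f x + f y)
    (hB : ∀ τ : ℝ, 0 < τ → Summable fun x => exp (-τ * B x x)) (hβ : 0 < β)
    (C : ℝ) (hC : 0 ≤ C) (hfB : ∀ x, f x ^ 2 ≤ C * B x x) (hB0 : ∀ x, 0 ≤ B x x) (t : ℝ) :
    (Summable fun x => exp (t * f x - β * B x x)) ∧
    ∑' x, exp (t * f x - β * B x x) ≤ exp (t ^ 2 * C / (4 * β)) * ∑' x, exp (-β * B x x) := by
  -- completing the square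
  have sq : ∀ (t τ δ : ℝ) (x : X), 0 < δ → δ < τ →
      t * f x - τ * B x x ≤ t ^ 2 * C / (4 * (τ - δ)) + -δ * B x x := by
    intro t τ δ x hδ hδτ
    have hd : 0 < τ - δ := by linarith
    have h1 : t * f x ≤ t ^ 2 * C / (4 * (τ - δ)) + (τ - δ) * B x x := by
      have h2 : (t * f x) ^ 2 ≤ t ^ 2 * C * B x x := by
        have := mul_le_mul_of_nonneg_left (hfB x) (sq_nonneg t)
        nlinarith
      set a : ℝ := t ^ 2 * C / (4 * (τ - δ)) with ha
      set b : ℝ := (τ - δ) * B x x with hb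
      have ha0 : 0 ≤ a := by positivity
      have hb0 : 0 ≤ b := mul_nonneg hd.le (hB0 x)
      have hab : t ^ 2 * C * B x x = 4 * (a * b) := by
        rw [ha, hb]
        field_simp
      have h3 : (t * f x) ^ 2 ≤ (a + b) ^ 2 := by
        nlinarith [sq_nonneg (a - b)]
      exact le_of_sq_le_sq h3 (by linarith)
    nlinarith
  have hw : ∀ t τ : ℝ, 0 < τ → Summable fun x => exp (t * f x - τ * B x x) := by
    intro t τ hτ
    refine Summable.of_nonneg_of_le (fun x => (exp_pos _).le) (fun x => ?_)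
      ((hB (τ / 2) (by linarith)).mul_left (exp (t ^ 2 * C / (4 * (τ - τ / 2)))))
    rw [← exp_add]
    exact exp_le_exp.2 (sq t τ (τ / 2) x (by linarith) (by linarith))
  refine ⟨hw t β hβ, ?_⟩
  set Z : ℝ → ℝ := fun t => ∑' x, exp (t * f x - β * B x x) with hZ
  have hZpos : ∀ t, 0 < Z t := fun t =>
    (hw t β hβ).tsum_pos (fun x => (exp_pos _).le) 0 (exp_pos _)
  have hZ0 : ∑' x, exp (-β * B x x) = Z 0 := by
    simp only [hZ]
    refine tsum_congr fun x => ?_
    congr 1
    ring
  rw [hZ0]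
  -- the logarithm
  set l : ℝ → ℝ := fun t => Real.log (Z t) - Real.log (Z 0) with hl
  have hl4 : ∀ t, 4 * l t ≤ l (2 * t) := by
    intro t
    have h := quartic q hq h2 β B hsym hadd f hf hw hβ t
    have h1 := Real.log_le_log (pow_pos (hZpos t) 4) h
    rw [Real.log_pow, Real.log_mul (hZpos (2 * t)).ne' (pow_pos (hZpos 0) 3).ne',
      Real.log_pow] at h1
    simp only [hl]
    push_cast at h1
    linarith
  have hlk : ∀ (k : ℕ) (t : ℝ), 4 ^ k * l t ≤ l (2 ^ k * t) := by
    intro k
    induction k with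
    | zero => intro t; simp
    | succ k ih =>
      intro t
      have h1 := ih t
      have h2 := hl4 (2 ^ k * t)
      rw [show (2 : ℝ) ^ (k + 1) * t = 2 * (2 ^ k * t) by ring]
      rw [show (4 : ℝ) ^ (k + 1) * l t = 4 * (4 ^ k * l t) by ring]
      linarith
  have hcr : ∀ (δ : ℝ), 0 < δ → δ < β → l t ≤ t ^ 2 * C / (4 * (β - δ)) := by
    intro δ hδ hδβ
    have hd : 0 < β - δ := by linarith
    set K : ℝ := Real.log (∑' x, exp (-δ * B x x)) - Real.log (Z 0) with hK
    have hpos : 0 < ∑' x, exp (-δ * B x x) :=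
      (hB δ hδ).tsum_pos (fun x => (exp_pos _).le) 0 (exp_pos _)
    have hb : ∀ s : ℝ, l s ≤ s ^ 2 * C / (4 * (β - δ)) + K := by
      intro s
      have h1 : Z s ≤ exp (s ^ 2 * C / (4 * (β - δ))) * ∑' x, exp (-δ * B x x) := by
        rw [← tsum_mul_left]
        refine (hw s β hβ).tsum_le_tsum (fun x => ?_) ((hB δ hδ).mul_left _)
        rw [← exp_add]
        exact exp_le_exp.2 (sq s β δ x hδ hδβ)
      have h2 := Real.log_le_log (hZpos s) h1
      rw [Real.log_mul (exp_pos _).ne' hpos.ne', Real.log_exp] at h2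
      simp only [hl, hK]
      linarith
    have h3 : ∀ k : ℕ, l t - t ^ 2 * C / (4 * (β - δ)) ≤ K * ((1 : ℝ) / 4) ^ k := by
      intro k
      have h4 := (hlk k t).trans (hb (2 ^ k * t))
      have h5 : (2 ^ k * t) ^ 2 * C / (4 * (β - δ)) = 4 ^ k * (t ^ 2 * C / (4 * (β - δ))) := by
        rw [mul_pow, ← pow_mul, mul_comm k 2, pow_mul]
        norm_num
        ring
      rw [h5] at h4
      have h6 : (0 : ℝ) < 4 ^ k := by positivity
      have h7 : K * ((1 : ℝ) / 4) ^ k = K / 4 ^ k := by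
        rw [div_pow, one_pow]
        ring
      rw [h7, le_div_iff₀ h6]
      linarith
    have h8 : Filter.Tendsto (fun k : ℕ => K * ((1 : ℝ) / 4) ^ k) Filter.atTop (nhds (K * 0)) :=
      (tendsto_pow_atTop_nhds_zero_of_lt_one (by norm_num) (by norm_num)).const_mul K
    rw [mul_zero] at h8
    have h9 := ge_of_tendsto' h8 h3
    linarith
  -- let `δ → 0`
  have hfin : l t ≤ t ^ 2 * C / (4 * β) := by
    have ht : Filter.Tendsto (fun δ : ℝ => t ^ 2 * C / (4 * (β - δ)))
        (nhdsWithin 0 (Set.Ioi 0)) (nhds (t ^ 2 * C / (4 * (β - 0)))) := by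
      apply Filter.Tendsto.mono_left _ nhdsWithin_le_nhds
      apply Filter.Tendsto.div tendsto_const_nhds
      · exact (tendsto_const_nhds.mul (tendsto_const_nhds.sub Filter.tendsto_id))
      · simp [hβ.ne']
    rw [sub_zero] at ht
    refine ge_of_tendsto ht ?_
    have : Set.Ioo (0 : ℝ) β ∈ nhdsWithin (0 : ℝ) (Set.Ioi 0) := Ioo_mem_nhdsGT hβ
    filter_upwards [this] with δ hδ
    exact hcr δ hδ.1 hδ.2
  have : Real.log (Z t) ≤ t ^ 2 * C / (4 * β) + Real.log (Z 0) := by
    simp only [hl] at hfin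
    linarith
  rw [Real.log_le_iff_le_exp (hZpos t), exp_add, Real.exp_log (hZpos 0)] at this
  exact this

theorem cosh_lower (y : ℝ) : 1 + y ^ 2 / 2 ≤ Real.cosh y := by
  have h1 : Real.cosh y = 1 + 2 * Real.sinh (y / 2) ^ 2 := by
    have h := Real.cosh_two_mul (y / 2)
    rw [Real.cosh_sq] at h
    rw [show 2 * (y / 2) = y by ring] at h
    rw [h]
    ring
  have h2 : (y / 2) ^ 2 ≤ Real.sinh (y / 2) ^ 2 := by
    rcases le_total 0 (y / 2) with h | h
    · exact pow_le_pow_left₀ h (Real.self_le_sinh_iff.2 h) 2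
    · have h3 : 0 ≤ -(y / 2) := by linarith
      have h4 := pow_le_pow_left₀ h3 (Real.self_le_sinh_iff.2 h3) 2
      rw [Real.sinh_neg, neg_sq, neg_sq] at h4
      exact h4
  rw [h1]
  nlinarith

/-- the second moment bound -/
theorem second_moment_le {X Q : Type*} [AddCommGroup X] [Fintype Q] [DecidableEq Q] (q : X → Q)
    (hq : ∀ a b : X, q a = q b ↔ ∃ z : X, a = b + z + z) (h2 : ∀ z : X, z + z = 0 → z = 0)
    (β : ℝ) (B : X → X → ℝ)
    (hsym : ∀ x y, B x y = B y x) (hadd : ∀ x y z, B (x + y) z = B x z + B y z)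
    (f : X → ℝ) (hf : ∀ x y, f (x + y) = f x + f y)
    (hB : ∀ τ : ℝ, 0 < τ → Summable fun x => exp (-τ * B x x)) (hβ : 0 < β)
    (C : ℝ) (hC : 0 ≤ C) (hfB : ∀ x, f x ^ 2 ≤ C * B x x) (hB0 : ∀ x, 0 ≤ B x x)
    (hf2 : Summable fun x => f x ^ 2 * exp (-β * B x x)) :
    ∑' x, f x ^ 2 * exp (-β * B x x) ≤ C / (2 * β) * ∑' x, exp (-β * B x x) := by
  set Z0 : ℝ := ∑' x, exp (-β * B x x) with hZ0
  set S2 : ℝ := ∑' x, f x ^ 2 * exp (-β * B x x) with hS2
  have hneg : ∀ x y, B (-x) y = - B x y := by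
    intro x y
    have h0 : B 0 y = 0 := by
      have := hadd 0 0 y
      simp only [add_zero] at this
      linarith
    have := hadd x (-x) y
    rw [add_neg_cancel, h0] at this
    linarith
  have hneg2 : ∀ x y, B x (-y) = - B x y := by
    intro x y; rw [hsym, hneg, hsym]
  have hBn : ∀ x, B (-x) (-x) = B x x := by
    intro x; rw [hneg, hneg2, neg_neg]
  have hfn : ∀ x, f (-x) = - f x := by
    intro x
    have h0 : f 0 = 0 := by
      have := hf 0 0
      simp only [add_zero] at this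
      linarith
    have := hf x (-x)
    rw [add_neg_cancel, h0] at this
    linarith
  have hZ0pos : 0 < Z0 := (hB β hβ).tsum_pos (fun x => (exp_pos _).le) 0 (exp_pos _)
  have key : ∀ t : ℝ, t ^ 2 / 2 * S2 ≤ (exp (t ^ 2 * C / (4 * β)) - 1) * Z0 := by
    intro t
    have m1 := mgf_le q hq h2 β B hsym hadd f hf hB hβ C hC hfB hB0 t
    have m2 := mgf_le q hq h2 β B hsym hadd f hf hB hβ C hC hfB hB0 (-t)
    rw [neg_sq] at m2
    have h1 : ∑' x, (exp (-β * B x x) + t ^ 2 / 2 * (f x ^ 2 * exp (-β * B x x))) ≤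
        ∑' x, (1 / 2 * exp (t * f x - β * B x x) + 1 / 2 * exp (-t * f x - β * B x x)) := by
      refine ((hB β hβ).add (hf2.mul_left _)).tsum_le_tsum (fun x => ?_)
        ((m1.1.mul_left _).add (m2.1.mul_left _))
      have e1 : 1 / 2 * exp (t * f x - β * B x x) + 1 / 2 * exp (-t * f x - β * B x x) =
          Real.cosh (t * f x) * exp (-β * B x x) := by
        rw [Real.cosh_eq, show t * f x - β * B x x = t * f x + -β * B x x by ring,
          show -t * f x - β * B x x = -(t * f x) + -β * B x x by ring, exp_add, exp_add]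
        ring
      rw [e1]
      have e2 : exp (-β * B x x) + t ^ 2 / 2 * (f x ^ 2 * exp (-β * B x x)) =
          (1 + (t * f x) ^ 2 / 2) * exp (-β * B x x) := by ring
      rw [e2]
      apply mul_le_mul_of_nonneg_right _ (exp_pos _).le
      exact cosh_lower (t * f x)
    rw [(hB β hβ).tsum_add (hf2.mul_left _), (m1.1.mul_left _).tsum_add (m2.1.mul_left _),
      tsum_mul_left, tsum_mul_left, tsum_mul_left] at h1
    have h3 := m1.2
    have h4 := m2.2
    linarith
  -- let `t → 0`
  have h5 : ∀ u : ℝ, 0 < u → S2 ≤ 2 * ((exp (u * (C / (4 * β))) - 1) / u) * Z0 := by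
    intro u hu
    have h6 := key (Real.sqrt u)
    rw [Real.sq_sqrt hu.le] at h6
    rw [show u * C / (4 * β) = u * (C / (4 * β)) by ring] at h6
    have e : 2 * ((exp (u * (C / (4 * β))) - 1) / u) * Z0 =
        (exp (u * (C / (4 * β))) - 1) * Z0 * 2 / u := by ring
    rw [e, le_div_iff₀ hu]
    linarith
  have h7 : Filter.Tendsto (fun u : ℝ => (exp (u * (C / (4 * β))) - 1) / u)
      (nhdsWithin 0 (Set.Ioi 0)) (nhds (C / (4 * β))) := by
    have hd : HasDerivAt (fun u : ℝ => exp (u * (C / (4 * β)))) (C / (4 * β)) 0 := by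
      have h := ((hasDerivAt_id (0 : ℝ)).mul_const (C / (4 * β))).exp
      simpa using h
    have h := hd.tendsto_slope_zero_right
    refine h.congr fun u => ?_
    simp only [zero_add, zero_mul, exp_zero, smul_eq_mul]
    exact (div_eq_inv_mul _ _).symm
  have h8 : Filter.Tendsto (fun u : ℝ => 2 * ((exp (u * (C / (4 * β))) - 1) / u) * Z0)
      (nhdsWithin 0 (Set.Ioi 0)) (nhds (2 * (C / (4 * β)) * Z0)) :=
    (h7.const_mul 2).mul_const Z0
  have h9 : S2 ≤ 2 * (C / (4 * β)) * Z0 := by
    refine ge_of_tendsto h8 ?_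
    filter_upwards [self_mem_nhdsWithin] with u hu
    exact h5 u hu
  refine h9.trans (le_of_eq ?_)
  have : β ≠ 0 := hβ.ne'
  field_simp
  ring

end Run7.h934
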