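import Pool.Agent.Run7.h934.ChainMain
import Pool.Agent.Run7.h934.Upper
import Pool.Agent.Run7.h934.Poinc
import Pool.Agent.Run7.h934.Uniform

set_option autoImplicit false

/-!
# The long-range discrete Gaussian chain (MP_57c4e5_pr): two-sided bounds
-/

namespace Run7.h934

open Real Finset

theorem summable_weight (α β : ℝ) (hα : 2 < α) (hβ : 0 < β) (N : ℕ) :
    Summable fun φ : KN N => exp (-β * Bz α N φ φ) := by
  have hS := summable_aux α β hα hβ N
  refine Summable.of_nonneg_of_le (fun φ => (exp_pos _).le) (fun φ => ?_) hS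
  have : 0 ≤ ((φ.1 0 : ℤ) : ℝ) ^ 2 := sq_nonneg _
  nlinarith [exp_pos (-β * Bz α N φ φ)]

theorem summable_weight2 (α β : ℝ) (hα : 2 < α) (hβ : 0 < β) (N : ℕ) :
    Summable fun φ : KN N => ((φ.1 0 : ℤ) : ℝ) ^ 2 * exp (-β * Bz α N φ φ) := by
  have hS := summable_aux α β hα hβ N
  refine Summable.of_nonneg_of_le (fun φ => by positivity) (fun φ => ?_) hS
  nlinarith [exp_pos (-β * Bz α N φ φ)]

theorem Bz_add (α : ℝ) (hα : 2 < α) (N : ℕ) (x y z : KN N) :
    Bz α N (x + y) z = Bz α N x z + Bz α N y z := by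
  have := Bf_add α (by linarith) N (fun t => ((x.1 t : ℤ) : ℝ)) (fun t => ((y.1 t : ℤ) : ℝ))
    (fun t => ((z.1 t : ℤ) : ℝ)) (KN_supp N x) (KN_supp N y) (KN_supp N z)
  unfold Bz
  rw [← this]
  congr 1
  funext t
  simp

/-- the parity class of a configuration -/
def par (N : ℕ) (φ : KN N) : Finset.Icc (-(N : ℤ)) N → ZMod 2 := fun x => ((φ.1 x : ℤ) : ZMod 2)

theorem par_iff (N : ℕ) (a b : KN N) : par N a = par N b ↔ ∃ z : KN N, a = b + z + z := by
  constructor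
  · intro h
    have hd : ∀ x : ℤ, (2 : ℤ) ∣ a.1 x - b.1 x := by
      intro x
      by_cases hx : (N : ℤ) < |x|
      · rw [a.2 x hx, b.2 x hx]
        simp
      · have hx' : x ∈ Finset.Icc (-(N : ℤ)) N := by
          rw [Finset.mem_Icc, ← abs_le]; omega
        have := congrFun h ⟨x, hx'⟩
        unfold par at this
        have h2 := (ZMod.intCast_eq_intCast_iff_dvd_sub _ _ 2).1 this.symm
        exact_mod_cast h2
    refine ⟨⟨fun x => (a.1 x - b.1 x) / 2, ?_⟩, ?_⟩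
    · intro x hx
      simp only
      rw [a.2 x hx, b.2 x hx]
      simp
    · apply Subtype.ext
      funext x
      have := hd x
      simp only [AddSubgroup.coe_add, Pi.add_apply]
      omega
  · rintro ⟨z, rfl⟩
    funext x
    unfold par
    simp only [AddSubgroup.coe_add, Pi.add_apply, Int.cast_add]
    rw [add_assoc, CharTwo.add_self_eq_zero, add_zero]

theorem KN_torsion (N : ℕ) (z : KN N) (h : z + z = 0) : z = 0 := by
  apply Subtype.ext
  funext x
  have := congrFun (congrArg Subtype.val h) x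
  simp only [AddSubgroup.coe_add, Pi.add_apply, AddSubgroup.coe_zero, Pi.zero_apply] at this ⊢
  omega

theorem second_le (α β : ℝ) (hα : 2 < α) (hβ : 0 < β) (N : ℕ) (C : ℝ) (hC : 0 ≤ C)
    (hp : ∀ φ : KN N, ((φ.1 0 : ℤ) : ℝ) ^ 2 ≤ C * Bz α N φ φ) :
    (∑' φ : KN N, ((φ.1 0 : ℤ) : ℝ) ^ 2 * exp (-β * Bz α N φ φ)) /
        (∑' φ : KN N, exp (-β * Bz α N φ φ)) ≤ C / (2 * β) := by
  classical
  have hpos : 0 < ∑' φ : KN N, exp (-β * Bz α N φ φ) :=
    (summable_weight α β hα hβ N).tsum_pos (fun φ => (exp_pos _).le) 0 (exp_pos _)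
  rw [div_le_iff₀ hpos]
  exact second_moment_le (par N) (par_iff N) (KN_torsion N) β (Bz α N) (Bz_comm α N)
    (Bz_add α hα N) (fun φ => ((φ.1 0 : ℤ) : ℝ)) (fun x y => by simp)
    (fun τ hτ => summable_weight α τ hα hτ N) hβ C hC hp
    (fun φ => Bf_self_nonneg α _) (summable_weight2 α β hα hβ N)

namespace Chain

theorem variance_eq (α β : ℝ) (hα : 2 < α) (n : ℕ) :
    variance α β n = (∑' φ : KN n, ((φ.1 0 : ℤ) : ℝ) ^ 2 * exp (-(β / 2) * Bz α n φ φ)) /
        (∑' φ : KN n, exp (-(β / 2) * Bz α n φ φ)) := by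
  unfold variance
  rw [mean_zero α β hα n]
  unfold expect
  simp only [sub_zero]
  change (∑' ψ : KN n, ((ψ.1 0 : ℤ) : ℝ) ^ 2 * Real.exp (-β * energy α ψ.1)) /
    (∑' ψ : KN n, Real.exp (-β * energy α ψ.1)) = _
  simp only [weight_eq α β hα n]

theorem two_sided (α : ℝ) (hα : 2 < α) (hα3 : α < 3) :
    ∃ c C : ℝ, 0 < c ∧ 0 < C ∧ ∀ β : ℝ, 0 < β →
      (∀ n : ℕ, 1 ≤ n → variance α β n ≤ C / β * (n : ℝ) ^ (α - 2)) ∧
      (∃ n₀ : ℕ, ∀ n : ℕ, n₀ ≤ n → c / β * (n : ℝ) ^ (α - 2) ≤ variance α β n) ∧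
      (∃ b : ℝ, 0 < b ∧ ∀ n : ℕ, b * (n : ℝ) ^ (α - 2) ≤ variance α β n) := by
  obtain ⟨C, hC, hpc⟩ := poincare α hα
  obtain ⟨c, hc, hlow⟩ := variance_uniform α hα hα3
  refine ⟨2 * c, C, by positivity, hC, fun β hβ => ⟨?_, ?_, main α β hα hα3 hβ⟩⟩
  · intro n hn
    obtain ⟨N, rfl⟩ : ∃ N, n = N + 1 := ⟨n - 1, by omega⟩
    rw [variance_eq α β hα]
    have h := second_le α (β / 2) hα (by linarith) (N + 1) (C * ((N : ℝ) + 1) ^ (α - 2))
      (by positivity) (fun φ => hpc N (fun x => ((φ.1 x : ℤ) : ℝ)) (KN_supp (N + 1) φ))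
    refine h.trans (le_of_eq ?_)
    push_cast
    have : β ≠ 0 := hβ.ne'
    field_simp
  · obtain ⟨n₀, h⟩ := hlow (β / 2) (by linarith)
    refine ⟨n₀, fun n hn => ?_⟩
    rw [variance_eq α β hα]
    refine le_trans (le_of_eq ?_) (h n hn)
    have : β ≠ 0 := hβ.ne'
    field_simp

end Chain

end Run7.h934
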