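import Mathlib

set_option autoImplicit false

/-!
# The long-range discrete Gaussian chain (MP_57c4e5_pr): definitions
-/

namespace Run7.h934.Chain

/-- integer-valued configurations on `ℤ` vanishing outside `{-n, ..., n}` -/
def Config (n : ℕ) : Type := {ψ : ℤ → ℤ // ∀ x : ℤ, (n : ℤ) < |x| → ψ x = 0}

/-- `H(ψ)`, the sum over unordered pairs `{x, y}`, each represented by `x < y`, of
`(ψ x - ψ y)^2 / |x - y|^α` -/
noncomputable def energy (α : ℝ) (ψ : ℤ → ℤ) : ℝ :=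
  ∑' p : {p : ℤ × ℤ // p.1 < p.2},
    ((ψ p.1.1 : ℝ) - (ψ p.1.2 : ℝ)) ^ 2 / ((|p.1.1 - p.1.2| : ℤ) : ℝ) ^ α

/-- the expectation of `f` under the discrete Gaussian chain on `{-n, ..., n}` -/
noncomputable def expect (α β : ℝ) (n : ℕ) (f : (ℤ → ℤ) → ℝ) : ℝ :=
  (∑' ψ : Config n, f ψ.1 * Real.exp (-β * energy α ψ.1)) /
    ∑' ψ : Config n, Real.exp (-β * energy α ψ.1)

/-- the variance of the height at the origin -/
noncomputable def variance (α β : ℝ) (n : ℕ) : ℝ :=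
  expect α β n fun ψ => ((ψ 0 : ℝ) - expect α β n fun φ => (φ 0 : ℝ)) ^ 2

end Run7.h934.Chain
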