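import Pool.Agent.Run7.h934.Frozen
import Pool.Agent.Run7.h934.ChainDefs

set_option autoImplicit false

/-!
# The long-range discrete Gaussian chain (MP_57c4e5_pr): the variance grows like `n ^ (α - 2)`
-/

namespace Run7.h934.Chain

open Real Finset

/-- a symmetric sum over ordered pairs is twice the sum over pairs `x < y` -/
theorem tsum_pairs (g : ℤ × ℤ → ℝ) (hg : Summable g) (hsym : ∀ p, g p.swap = g p)
    (hdiag : ∀ p : ℤ × ℤ, p.1 = p.2 → g p = 0) :
    ∑' p, g p = 2 * ∑' p : {p : ℤ × ℤ // p.1 < p.2}, g p.1 := by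
  classical
  set S : Set (ℤ × ℤ) := {p | p.1 < p.2} with hS
  set S' : Set (ℤ × ℤ) := {p | p.2 < p.1} with hS'
  have e : ∀ p, g p = S.indicator g p + S'.indicator g p := by
    intro p
    rcases lt_trichotomy p.1 p.2 with h | h | h
    · rw [Set.indicator_of_mem (show p ∈ S from h),
        Set.indicator_of_notMem (show p ∉ S' from not_lt.2 h.le), add_zero]
    · rw [Set.indicator_of_notMem (show p ∉ S from not_lt.2 h.ge),
        Set.indicator_of_notMem (show p ∉ S' from not_lt.2 h.le), hdiag p h, add_zero]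
    · rw [Set.indicator_of_notMem (show p ∉ S from not_lt.2 h.le),
        Set.indicator_of_mem (show p ∈ S' from h), zero_add]
  have h1 : ∑' p, g p = ∑' p, S.indicator g p + ∑' p, S'.indicator g p := by
    rw [← (hg.indicator S).tsum_add (hg.indicator S')]
    exact tsum_congr e
  have h2 : ∑' p, S'.indicator g p = ∑' p, S.indicator g p := by
    rw [← (Equiv.prodComm ℤ ℤ).tsum_eq (S.indicator g)]
    refine tsum_congr fun p => ?_
    simp only [Equiv.prodComm_apply]
    by_cases h : p.2 < p.1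
    · rw [Set.indicator_of_mem (show p ∈ S' from h),
        Set.indicator_of_mem (show p.swap ∈ S from h), hsym]
    · rw [Set.indicator_of_notMem (show p ∉ S' from h),
        Set.indicator_of_notMem (show p.swap ∉ S from h)]
  rw [h1, h2, ← two_mul, ← tsum_subtype S g]
  rfl

theorem energy_half (α : ℝ) (hα : 2 < α) (N : ℕ) (φ : KN N) :
    Bz α N φ φ = 2 * energy α φ.1 := by
  have hS := summable_T α (by linarith) N (fun x => (φ.1 x : ℝ)) (fun x => (φ.1 x : ℝ))
    (KN_supp N φ) (KN_supp N φ)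
  unfold Bz Bf
  rw [tsum_pairs _ hS]
  · congr 1
    unfold energy
    refine tsum_congr fun p => ?_
    unfold T
    rw [Real.rpow_neg (abs_nonneg _), ← pow_two, Int.cast_abs, div_eq_inv_mul]
  · intro p
    unfold T
    simp only [Prod.fst_swap, Prod.snd_swap]
    have : |((p.2 - p.1 : ℤ) : ℝ)| = |((p.1 - p.2 : ℤ) : ℝ)| := by
      push_cast
      exact abs_sub_comm _ _
    rw [this]
    ring
  · intro p h
    unfold T
    rw [h]
    simp

theorem weight_eq (α β : ℝ) (hα : 2 < α) (N : ℕ) (φ : KN N) :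
    Real.exp (-β * energy α φ.1) = Real.exp (-(β / 2) * Bz α N φ φ) := by
  rw [energy_half α hα N φ]
  congr 1
  ring

theorem mean_zero (α β : ℝ) (hα : 2 < α) (N : ℕ) :
    expect α β N (fun φ => (φ 0 : ℝ)) = 0 := by
  unfold expect
  have h : ∑' ψ : KN N, ((ψ.1 0 : ℤ) : ℝ) * Real.exp (-β * energy α ψ.1) = 0 := by
    have e := (Equiv.neg (KN N)).tsum_eq
      (fun ψ : KN N => ((ψ.1 0 : ℤ) : ℝ) * Real.exp (-β * energy α ψ.1))
    have e2 : ∀ ψ : KN N, (((-ψ).1 0 : ℤ) : ℝ) * Real.exp (-β * energy α (-ψ).1) =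
        -(((ψ.1 0 : ℤ) : ℝ) * Real.exp (-β * energy α ψ.1)) := by
      intro ψ
      have h1 : energy α (-ψ).1 = energy α ψ.1 := by
        unfold energy
        refine tsum_congr fun p => ?_
        have : ∀ x : ℤ, (((-ψ).1 x : ℤ) : ℝ) = -((ψ.1 x : ℤ) : ℝ) := by
          intro x
          simp
        rw [this, this]
        ring
      rw [h1]
      simp
    simp only [Equiv.neg_apply] at e
    simp only [e2] at e
    rw [tsum_neg] at e
    linarith
  change (∑' ψ : KN N, ((ψ.1 0 : ℤ) : ℝ) * Real.exp (-β * energy α ψ.1)) / _ = 0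
  rw [h, zero_div]

theorem main (α β : ℝ) (hα : 2 < α) (hα3 : α < 3) (hβ : 0 < β) :
    ∃ c : ℝ, 0 < c ∧ ∀ n : ℕ, c * (n : ℝ) ^ (α - 2) ≤ variance α β n := by
  obtain ⟨c, hc, h⟩ := variance_lower α (β / 2) hα hα3 (by linarith)
  refine ⟨c, hc, fun n => ?_⟩
  have h1 := h n
  have h2 : c * (n : ℝ) ^ (α - 2) ≤ c * ((n : ℝ) + 1) ^ (α - 2) := by
    apply mul_le_mul_of_nonneg_left _ hc.le
    exact Real.rpow_le_rpow (by positivity) (by linarith) (by linarith)
  refine (h2.trans h1).trans (le_of_eq ?_)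
  unfold variance
  rw [mean_zero α β hα n]
  unfold expect
  simp only [sub_zero]
  change _ = (∑' ψ : KN n, ((ψ.1 0 : ℤ) : ℝ) ^ 2 * Real.exp (-β * energy α ψ.1)) /
    ∑' ψ : KN n, Real.exp (-β * energy α ψ.1)
  simp only [weight_eq α β hα n]

end Run7.h934.Chain
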