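import Pool.Agent.Run7.h934.Tail

set_option autoImplicit false

/-!
# The long-range Dirichlet form (MP_57c4e5_pr)
-/

namespace Run7.h934

open Real Finset

/-- one term of the bilinear form -/
noncomputable def T (α : ℝ) (f g : ℤ → ℝ) (p : ℤ × ℤ) : ℝ :=
  |((p.1 - p.2 : ℤ) : ℝ)| ^ (-α) * ((f p.1 - f p.2) * (g p.1 - g p.2))

/-- the bilinear form -/
noncomputable def Bf (α : ℝ) (f g : ℤ → ℝ) : ℝ := ∑' p, T α f g p

theorem summable_row (α : ℝ) (hα : 1 < α) (x : ℤ) :
    Summable fun y : ℤ => |((x - y : ℤ) : ℝ)| ^ (-α) :=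
  (Equiv.subLeft x).summable_iff.2 (Real.summable_abs_int_rpow hα)

theorem summable_left (α : ℝ) (hα : 1 < α) (N : ℕ) :
    Summable fun p : ℤ × ℤ => if |p.1| ≤ (N : ℤ) then |((p.1 - p.2 : ℤ) : ℝ)| ^ (-α) else 0 := by
  refine (summable_prod_of_nonneg (fun p => ?_)).2 ⟨fun x => ?_, ?_⟩
  · simp only [Pi.zero_apply]
    split_ifs <;> positivity
  · by_cases h : |x| ≤ (N : ℤ)
    · simp only [h, if_true]
      exact summable_row α hα x
    · simp only [h, if_false]
      exact summable_zero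
  · refine summable_of_ne_finset_zero (s := Finset.Icc (-(N : ℤ)) N) ?_
    intro x hx
    have h : ¬ |x| ≤ (N : ℤ) := by
      intro h
      rw [abs_le] at h
      exact hx (Finset.mem_Icc.2 h)
    simp only [h, if_false, tsum_zero]

theorem summable_right (α : ℝ) (hα : 1 < α) (N : ℕ) :
    Summable fun p : ℤ × ℤ => if |p.2| ≤ (N : ℤ) then |((p.1 - p.2 : ℤ) : ℝ)| ^ (-α) else 0 := by
  refine ((Equiv.prodComm ℤ ℤ).summable_iff.2 (summable_left α hα N)).congr fun p => ?_
  simp only [Function.comp, Equiv.prodComm_apply, Prod.fst_swap, Prod.snd_swap]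
  have : |((p.2 - p.1 : ℤ) : ℝ)| = |((p.1 - p.2 : ℤ) : ℝ)| := by
    push_cast
    exact abs_sub_comm _ _
  rw [this]

/-- boundedness of a finitely supported function -/
theorem bdd_of_supp (N : ℕ) (f : ℤ → ℝ) (hf : ∀ x : ℤ, (N : ℤ) < |x| → f x = 0) :
    ∃ F : ℝ, 0 ≤ F ∧ ∀ x, |f x| ≤ F := by
  refine ⟨∑ x ∈ Finset.Icc (-(N : ℤ)) N, |f x|, Finset.sum_nonneg fun _ _ => abs_nonneg _, ?_⟩
  intro x
  by_cases h : (N : ℤ) < |x|
  · rw [hf x h, abs_zero]
    exact Finset.sum_nonneg fun _ _ => abs_nonneg _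
  · have hx : x ∈ Finset.Icc (-(N : ℤ)) N := by
      rw [Finset.mem_Icc, ← abs_le]
      omega
    exact Finset.single_le_sum (f := fun x => |f x|) (fun _ _ => abs_nonneg _) hx

theorem summable_T (α : ℝ) (hα : 1 < α) (N : ℕ) (f g : ℤ → ℝ)
    (hf : ∀ x : ℤ, (N : ℤ) < |x| → f x = 0) (hg : ∀ x : ℤ, (N : ℤ) < |x| → g x = 0) :
    Summable (T α f g) := by
  obtain ⟨F, hF0, hF⟩ := bdd_of_supp N f hf
  obtain ⟨G, hG0, hG⟩ := bdd_of_supp N g hg
  refine Summable.of_norm_bounded (g := fun p : ℤ × ℤ => (2 * F) * (2 * G) *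
    ((if |p.1| ≤ (N : ℤ) then |((p.1 - p.2 : ℤ) : ℝ)| ^ (-α) else 0) +
      (if |p.2| ≤ (N : ℤ) then |((p.1 - p.2 : ℤ) : ℝ)| ^ (-α) else 0)))
    (((summable_left α hα N).add (summable_right α hα N)).mul_left _) ?_
  intro p
  have hJ : 0 ≤ |((p.1 - p.2 : ℤ) : ℝ)| ^ (-α) := by positivity
  have hb1 : |f p.1 - f p.2| ≤ 2 * F := by
    have := abs_sub (f p.1) (f p.2)
    linarith [hF p.1, hF p.2]
  have hb2 : |g p.1 - g p.2| ≤ 2 * G := by
    have := abs_sub (g p.1) (g p.2)
    linarith [hG p.1, hG p.2]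
  by_cases h1 : |p.1| ≤ (N : ℤ) ∨ |p.2| ≤ (N : ℤ)
  · unfold T
    rw [norm_mul, norm_mul, Real.norm_eq_abs, Real.norm_eq_abs, Real.norm_eq_abs,
      abs_of_nonneg hJ]
    have hprod : |f p.1 - f p.2| * |g p.1 - g p.2| ≤ (2 * F) * (2 * G) :=
      mul_le_mul hb1 hb2 (abs_nonneg _) (by linarith)
    have hsum : |((p.1 - p.2 : ℤ) : ℝ)| ^ (-α) ≤
        (if |p.1| ≤ (N : ℤ) then |((p.1 - p.2 : ℤ) : ℝ)| ^ (-α) else 0) +
      (if |p.2| ≤ (N : ℤ) then |((p.1 - p.2 : ℤ) : ℝ)| ^ (-α) else 0) := by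
      rcases h1 with h | h
      · rw [if_pos h]
        split_ifs <;> linarith
      · rw [if_pos h]
        split_ifs <;> linarith
    calc _ ≤ |((p.1 - p.2 : ℤ) : ℝ)| ^ (-α) * ((2 * F) * (2 * G)) :=
          mul_le_mul_of_nonneg_left hprod hJ
      _ = (2 * F) * (2 * G) * |((p.1 - p.2 : ℤ) : ℝ)| ^ (-α) := by ring
      _ ≤ _ := mul_le_mul_of_nonneg_left hsum (by positivity)
  · push Not at h1
    have e : T α f g p = 0 := by
      unfold T
      rw [hf _ h1.1, hf _ h1.2]
      ring
    rw [e, norm_zero]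
    split_ifs <;> positivity

theorem Bf_comm (α : ℝ) (f g : ℤ → ℝ) : Bf α f g = Bf α g f := by
  unfold Bf T
  exact tsum_congr fun p => by ring

theorem Bf_add (α : ℝ) (hα : 1 < α) (N : ℕ) (f g h : ℤ → ℝ)
    (hf : ∀ x : ℤ, (N : ℤ) < |x| → f x = 0) (hg : ∀ x : ℤ, (N : ℤ) < |x| → g x = 0)
    (hh : ∀ x : ℤ, (N : ℤ) < |x| → h x = 0) :
    Bf α (f + g) h = Bf α f h + Bf α g h := by
  unfold Bf
  rw [← (summable_T α hα N f h hf hh).tsum_add (summable_T α hα N g h hg hh)]
  refine tsum_congr fun p => ?_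
  unfold T
  simp only [Pi.add_apply]
  ring

/-- the indicator of the block `[-r, r]` -/
noncomputable def blk (r : ℕ) (x : ℤ) : ℝ := if |x| ≤ (r : ℤ) then 1 else 0

theorem blk_supp (r N : ℕ) (h : r ≤ N) (x : ℤ) (hx : (N : ℤ) < |x|) : blk r x = 0 := by
  unfold blk
  rw [if_neg]
  omega

/-- the shear `(d, x) ↦ (x, x - d)` -/
def shear : ℤ × ℤ ≃ ℤ × ℤ where
  toFun q := (q.2, q.2 - q.1)
  invFun p := (p.1 - p.2, p.1)
  left_inv q := by simp
  right_inv p := by simp

theorem count_le (r s : ℕ) (hrs : r ≤ s) (d : ℤ) :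
    ((Finset.Icc (-(r : ℤ)) r).filter fun x => (s : ℤ) < |x - d|).card ≤ d.natAbs := by
  rcases le_total 0 d with hd | hd
  · have : ((Finset.Icc (-(r : ℤ)) r).filter fun x => (s : ℤ) < |x - d|) ⊆
        Finset.Ico (-(r : ℤ)) (d - s) := by
      intro x hx
      rw [Finset.mem_filter, Finset.mem_Icc] at hx
      rw [Finset.mem_Ico]
      refine ⟨hx.1.1, ?_⟩
      have h := hx.2
      rw [lt_abs] at h
      omega
    refine (Finset.card_le_card this).trans ?_
    rw [Int.card_Ico]
    omega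
  · have : ((Finset.Icc (-(r : ℤ)) r).filter fun x => (s : ℤ) < |x - d|) ⊆
        Finset.Ioc ((s : ℤ) + d) r := by
      intro x hx
      rw [Finset.mem_filter, Finset.mem_Icc] at hx
      rw [Finset.mem_Ioc]
      refine ⟨?_, hx.1.2⟩
      have h := hx.2
      rw [lt_abs] at h
      omega
    refine (Finset.card_le_card this).trans ?_
    rw [Int.card_Ioc]
    omega

/-- The interaction of two nested blocks. -/
theorem Bf_blk_le (α : ℝ) (hα : 2 < α) (r s : ℕ) (hrs : r ≤ s) :
    Bf α (blk r) (blk s) ≤ 4 * ((1 + 1 / (α - 2)) * (((s - r : ℕ) : ℝ) + 1) ^ (2 - α)) := by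
  have hS := summable_T α (by linarith) s (blk r) (blk s) (blk_supp r s hrs) (blk_supp s s le_rfl)
  unfold Bf
  rw [← shear.tsum_eq (T α (blk r) (blk s))]
  have hS' : Summable fun q => T α (blk r) (blk s) (shear q) := shear.summable_iff.2 hS
  rw [hS'.tsum_prod]
  have hrow : ∀ d : ℤ, ∑' x : ℤ, T α (blk r) (blk s) (shear (d, x)) ≤
      2 * tailF (α - 1) (s - r) d := by
    intro d
    have e : ∀ x : ℤ, T α (blk r) (blk s) (shear (d, x)) =
        |(d : ℝ)| ^ (-α) * ((blk r x - blk r (x - d)) * (blk s x - blk s (x - d))) := by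
      intro x
      unfold T shear
      simp
    simp only [e]
    rw [tsum_mul_left]
    by_cases hd : ((s - r : ℕ) : ℤ) < |d|
    · have hd0 : d ≠ 0 := by
        intro h
        rw [h, abs_zero] at hd
        omega
      have hdpos : (0 : ℝ) < |(d : ℝ)| := by
        rw [abs_pos]; exact_mod_cast hd0
      -- the two counting sets
      set A := (Finset.Icc (-(r : ℤ)) r).filter fun x => (s : ℤ) < |x - d| with hA
      set A' := ((Finset.Icc (-(r : ℤ)) r).filter fun x => (s : ℤ) < |x - (-d)|) with hA'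
      set A2 := A'.image (fun x => x + d) with hA2
      have hsupp : ∀ x : ℤ, (blk r x - blk r (x - d)) * (blk s x - blk s (x - d)) ≤
          (if x ∈ A then (1 : ℝ) else 0) + (if x ∈ A2 then (1 : ℝ) else 0) := by
        intro x
        have m1 : x ∈ A ↔ |x| ≤ (r : ℤ) ∧ (s : ℤ) < |x - d| := by
          rw [hA, Finset.mem_filter, Finset.mem_Icc, abs_le]
        have m2 : x ∈ A2 ↔ |x - d| ≤ (r : ℤ) ∧ (s : ℤ) < |x| := by
          rw [hA2, Finset.mem_image]
          constructor
          · rintro ⟨y, hy, rfl⟩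
            rw [hA', Finset.mem_filter, Finset.mem_Icc, ← abs_le] at hy
            simpa using hy
          · intro h
            refine ⟨x - d, ?_, by ring⟩
            rw [hA', Finset.mem_filter, Finset.mem_Icc, ← abs_le]
            simpa using h
        simp only [m1, m2]
        unfold blk
        have hrs' : (r : ℤ) ≤ s := by exact_mod_cast hrs
        by_cases h1 : |x| ≤ (r : ℤ) <;> by_cases h2 : |x - d| ≤ (r : ℤ) <;>
          by_cases h3 : |x| ≤ (s : ℤ) <;> by_cases h4 : |x - d| ≤ (s : ℤ) <;>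
          simp only [h1, h2, h3, h4, not_lt, not_le] <;>
          first
          | (exfalso; omega)
          | (norm_num [not_lt.2 h3, not_lt.2 h4]; done)
          | (have h3' := not_le.1 h3
             have h4' := not_le.1 h4
             norm_num [h3', h4']; done)
          | (have h4' := not_le.1 h4
             norm_num [h4', not_lt.2 h3]; done)
          | (have h3' := not_le.1 h3
             norm_num [h3', not_lt.2 h4]; done)
      have hcard : ((A.card : ℝ)) + A2.card ≤ 2 * |(d : ℝ)| := by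
        have c1 := count_le r s hrs d
        have c2 := count_le r s hrs (-d)
        have c3 : A2.card ≤ A'.card := Finset.card_image_le
        rw [Int.natAbs_neg] at c2
        have c1' : (A.card : ℝ) ≤ (d.natAbs : ℝ) := by exact_mod_cast c1
        have c2' : (A2.card : ℝ) ≤ (d.natAbs : ℝ) := by exact_mod_cast c3.trans c2
        have e3 : (d.natAbs : ℝ) = |(d : ℝ)| := by
          rw [Nat.cast_natAbs]; push_cast; rfl
        rw [e3] at c1' c2'
        linarith
      have hsum1 : HasSum (fun x : ℤ => if x ∈ A then (1 : ℝ) else 0) (A.card : ℝ) := by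
        have : HasSum (fun x : ℤ => if x ∈ A then (1 : ℝ) else 0)
            (∑ b ∈ A, if b ∈ A then (1 : ℝ) else 0) :=
          hasSum_sum_of_ne_finset_zero (fun b hb => if_neg hb)
        simpa using this
      have hsum2 : HasSum (fun x : ℤ => if x ∈ A2 then (1 : ℝ) else 0) (A2.card : ℝ) := by
        have : HasSum (fun x : ℤ => if x ∈ A2 then (1 : ℝ) else 0)
            (∑ b ∈ A2, if b ∈ A2 then (1 : ℝ) else 0) :=
          hasSum_sum_of_ne_finset_zero (fun b hb => if_neg hb)
        simpa using this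
      have hfin : Summable fun x : ℤ =>
          (blk r x - blk r (x - d)) * (blk s x - blk s (x - d)) := by
        refine summable_of_ne_finset_zero
          (s := Finset.Icc (-((s : ℤ) + |d|)) ((s : ℤ) + |d|)) ?_
        intro x hx
        have h1 : ¬ |x| ≤ (s : ℤ) + |d| := by
          intro h; rw [abs_le] at h; exact hx (Finset.mem_Icc.2 h)
        have h2 : (s : ℤ) < |x| := by
          have := abs_nonneg d; omega
        have h3 : (s : ℤ) < |x - d| := by
          have := abs_sub_abs_le_abs_sub x d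
          omega
        rw [blk_supp s s le_rfl x h2, blk_supp s s le_rfl (x - d) h3]
        ring
      have hle : ∑' x : ℤ, (blk r x - blk r (x - d)) * (blk s x - blk s (x - d)) ≤
          2 * |(d : ℝ)| := by
        have h5 := hfin.tsum_le_tsum hsupp (hsum1.add hsum2).summable
        rw [(hsum1.add hsum2).tsum_eq] at h5
        exact h5.trans hcard
      unfold tailF
      rw [if_pos hd]
      have hJ : 0 ≤ |(d : ℝ)| ^ (-α) := by positivity
      calc |(d : ℝ)| ^ (-α) * _ ≤ |(d : ℝ)| ^ (-α) * (2 * |(d : ℝ)|) :=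
            mul_le_mul_of_nonneg_left hle hJ
        _ = 2 * (|(d : ℝ)| ^ (-α) * |(d : ℝ)| ^ (1 : ℝ)) := by rw [Real.rpow_one]; ring
        _ = 2 * |(d : ℝ)| ^ (-(α - 1)) := by
            rw [← Real.rpow_add hdpos]
            congr 2
            ring
    · -- no interaction at short distance
      have hz : ∀ x : ℤ, (blk r x - blk r (x - d)) * (blk s x - blk s (x - d)) = 0 := by
        intro x
        have h0 := abs_nonneg d
        have hx1 := abs_sub_abs_le_abs_sub x (x - d)
        have hx2 := abs_sub_abs_le_abs_sub (x - d) x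
        rw [show x - (x - d) = d by ring] at hx1
        rw [show x - d - x = -d by ring, abs_neg] at hx2
        unfold blk
        by_cases h1 : |x| ≤ (r : ℤ) <;> by_cases h2 : |x - d| ≤ (r : ℤ) <;>
          by_cases h3 : |x| ≤ (s : ℤ) <;> by_cases h4 : |x - d| ≤ (s : ℤ) <;>
          simp only [h1, h2, h3, h4, if_true, if_false] <;> first | norm_num; done | (exfalso; omega)
      simp only [hz, tsum_zero, mul_zero]
      unfold tailF
      rw [if_neg hd, mul_zero]
  have hT := summable_tailF (α - 1) (by linarith) (s - r)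
  have h6 := hS'.prod.tsum_le_tsum hrow (hT.mul_left 2)
  rw [tsum_mul_left] at h6
  have h7 := int_tail_le (α - 1) (by linarith) (s - r)
  rw [show α - 1 - 1 = α - 2 by ring, show 1 - (α - 1) = 2 - α by ring] at h7
  linarith

end Run7.h934
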