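import Pool.Agent.Run7.h934.Weight

set_option autoImplicit false

/-!
# The variance bound in explicit form (MP_57c4e5_pr)
-/

namespace Run7.h934

open Real Finset

/-- the exponent written with an explicit case distinction -/
theorem energy_eq (α : ℝ) (hα : 2 < α) (N : ℕ) (φ : KN N) :
    (∑' p : ℤ × ℤ, (if p.1 = p.2 then (0 : ℝ)
      else ((|p.1 - p.2| : ℤ) : ℝ) ^ (-α) * ((φ.1 p.1 : ℝ) - (φ.1 p.2 : ℝ)) ^ 2)) = Bz α N φ φ := by
  unfold Bz Bf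
  refine tsum_congr fun p => ?_
  unfold T
  by_cases h : p.1 = p.2
  · rw [if_pos h, h]
    simp
  · rw [if_neg h, pow_two, Int.cast_abs]

theorem explicit_lower (α β : ℝ) (hα : 2 < α) (hα3 : α < 3) (hβ : 0 < β) :
    ∃ c : ℝ, 0 < c ∧ ∀ N : ℕ, c * ((N : ℝ) + 1) ^ (α - 2) ≤
          (∑' φ : {φ : ℤ → ℤ // ∀ x : ℤ, (N : ℤ) < |x| → φ x = 0},
              ((φ.1 0 : ℝ)) ^ 2 *
                Real.exp (-β * ∑' p : ℤ × ℤ,
                  (if p.1 = p.2 then (0 : ℝ)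
                   else ((|p.1 - p.2| : ℤ) : ℝ) ^ (-α) *
                     ((φ.1 p.1 : ℝ) - (φ.1 p.2 : ℝ)) ^ 2))) /
          (∑' φ : {φ : ℤ → ℤ // ∀ x : ℤ, (N : ℤ) < |x| → φ x = 0},
              Real.exp (-β * ∑' p : ℤ × ℤ,
                (if p.1 = p.2 then (0 : ℝ)
                 else ((|p.1 - p.2| : ℤ) : ℝ) ^ (-α) *
                   ((φ.1 p.1 : ℝ) - (φ.1 p.2 : ℝ)) ^ 2))) := by
  obtain ⟨c, hc, h⟩ := variance_lower α β hα hα3 hβ
  refine ⟨c, hc, fun N => ?_⟩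
  have hN := h N
  have e1 : (∑' φ : {φ : ℤ → ℤ // ∀ x : ℤ, (N : ℤ) < |x| → φ x = 0},
              ((φ.1 0 : ℝ)) ^ 2 *
                Real.exp (-β * ∑' p : ℤ × ℤ,
                  (if p.1 = p.2 then (0 : ℝ)
                   else ((|p.1 - p.2| : ℤ) : ℝ) ^ (-α) *
                     ((φ.1 p.1 : ℝ) - (φ.1 p.2 : ℝ)) ^ 2))) =
      ∑' φ : KN N, ((φ.1 0 : ℤ) : ℝ) ^ 2 * exp (-β * Bz α N φ φ) := by
    change (∑' φ : KN N, ((φ.1 0 : ℝ)) ^ 2 *
                Real.exp (-β * ∑' p : ℤ × ℤ,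
                  (if p.1 = p.2 then (0 : ℝ)
                   else ((|p.1 - p.2| : ℤ) : ℝ) ^ (-α) *
                     ((φ.1 p.1 : ℝ) - (φ.1 p.2 : ℝ)) ^ 2))) = _
    exact tsum_congr fun φ => by rw [energy_eq α hα N φ]
  have e2 : (∑' φ : {φ : ℤ → ℤ // ∀ x : ℤ, (N : ℤ) < |x| → φ x = 0},
                Real.exp (-β * ∑' p : ℤ × ℤ,
                  (if p.1 = p.2 then (0 : ℝ)
                   else ((|p.1 - p.2| : ℤ) : ℝ) ^ (-α) *
                     ((φ.1 p.1 : ℝ) - (φ.1 p.2 : ℝ)) ^ 2))) =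
      ∑' φ : KN N, exp (-β * Bz α N φ φ) := by
    change (∑' φ : KN N, Real.exp (-β * ∑' p : ℤ × ℤ,
                  (if p.1 = p.2 then (0 : ℝ)
                   else ((|p.1 - p.2| : ℤ) : ℝ) ^ (-α) *
                     ((φ.1 p.1 : ℝ) - (φ.1 p.2 : ℝ)) ^ 2))) = _
    exact tsum_congr fun φ => by rw [energy_eq α hα N φ]
  rw [e1, e2]
  exact hN

theorem frozen_form (α : ℝ) (hα : 2 < α) (hα3 : α < 3) (β : ℝ) (hβ : 0 < β) :
      Filter.Tendsto
        (fun N : ℕ =>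
          (∑' φ : {φ : ℤ → ℤ // ∀ x : ℤ, (N : ℤ) < |x| → φ x = 0},
              ((φ.1 0 : ℝ)) ^ 2 *
                Real.exp (-β * ∑' p : ℤ × ℤ,
                  (if p.1 = p.2 then (0 : ℝ)
                   else ((|p.1 - p.2| : ℤ) : ℝ) ^ (-α) *
                     ((φ.1 p.1 : ℝ) - (φ.1 p.2 : ℝ)) ^ 2))) /
          (∑' φ : {φ : ℤ → ℤ // ∀ x : ℤ, (N : ℤ) < |x| → φ x = 0},
              Real.exp (-β * ∑' p : ℤ × ℤ,
                (if p.1 = p.2 then (0 : ℝ)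
                 else ((|p.1 - p.2| : ℤ) : ℝ) ^ (-α) *
                   ((φ.1 p.1 : ℝ) - (φ.1 p.2 : ℝ)) ^ 2))))
        Filter.atTop Filter.atTop := by
  obtain ⟨c, hc, h⟩ := explicit_lower α β hα hα3 hβ
  refine Filter.tendsto_atTop_mono h ?_
  apply Filter.Tendsto.const_mul_atTop hc
  have h1 : Filter.Tendsto (fun N : ℕ => (N : ℝ) + 1) Filter.atTop Filter.atTop :=
    Filter.tendsto_atTop_add_const_right _ _ tendsto_natCast_atTop_atTop
  exact (tendsto_rpow_atTop (by linarith)).comp h1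

end Run7.h934
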