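import Mathlib

set_option autoImplicit false

/-!
# Elementary sums of powers (MP_57c4e5_pr)
-/

namespace Run7.h934

open Real Finset

theorem summable_shift (s : ℝ) (hs : 1 < s) (m : ℕ) :
    Summable fun n : ℕ => ((n : ℝ) + m + 1) ^ (-s) := by
  have h := (Real.summable_nat_rpow.2 (show -s < -1 by linarith))
  have h2 := (summable_nat_add_iff (m + 1)).2 h
  refine h2.congr fun n => ?_
  push_cast
  ring_nf

theorem tail_le (s : ℝ) (hs : 1 < s) (m : ℕ) :
    ∑' n : ℕ, ((n : ℝ) + m + 1) ^ (-s) ≤ (1 + 1 / (s - 1)) * ((m : ℝ) + 1) ^ (1 - s) := by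
  have hm : (0 : ℝ) < (m : ℝ) + 1 := by positivity
  have h0 := (summable_shift s hs m).tsum_eq_zero_add
  rw [h0]
  have h1 : ∑' n : ℕ, (((n + 1 : ℕ) : ℝ) + m + 1) ^ (-s) ≤
      ∫ x in Set.Ioi (((m + 1 : ℕ) : ℝ)), x ^ (-s) := by
    have := AntitoneOn.tsum_comp_add_le_integral (f := fun x : ℝ => x ^ (-s)) (m + 1)
      (by
        intro a ha b hb hab
        have ha' : (0 : ℝ) < a := lt_of_lt_of_le (by positivity) ha
        exact Real.rpow_le_rpow_of_nonpos ha' hab (by linarith))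
      (by
        exact integrableOn_Ioi_rpow_of_lt (by linarith) (by positivity))
      (by
        intro t ht
        have : (0 : ℝ) < t := lt_trans (by positivity) ht
        positivity)
    refine le_trans (le_of_eq ?_) this
    refine tsum_congr fun n => ?_
    push_cast
    ring_nf
  rw [integral_Ioi_rpow_of_lt (by linarith) (by positivity)] at h1
  have e1 : -((((m + 1 : ℕ) : ℝ)) ^ (-s + 1)) / (-s + 1) = 1 / (s - 1) * ((m : ℝ) + 1) ^ (1 - s) := by
    have : s - 1 ≠ 0 := by linarith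
    have h' : -s + 1 ≠ 0 := by intro h; apply this; linarith
    push_cast
    rw [show (-s + 1) = (1 - s) by ring] at *
    field_simp
    ring
  rw [e1] at h1
  have h2 : (((0 : ℕ) : ℝ) + m + 1) ^ (-s) ≤ ((m : ℝ) + 1) ^ (1 - s) := by
    simp only [Nat.cast_zero, zero_add]
    apply Real.rpow_le_rpow_of_exponent_le <;> linarith [Nat.cast_nonneg (α := ℝ) m]
  rw [add_mul, one_mul]
  exact add_le_add h2 h1

theorem sum_pow_le (t : ℝ) (ht0 : 0 < t) (ht1 : t < 1) (N : ℕ) :
    ∑ d ∈ range (N + 1), ((d : ℝ) + 1) ^ (-t) ≤ (1 + 1 / (1 - t)) * ((N : ℝ) + 1) ^ (1 - t) := by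
  rw [Finset.sum_range_succ']
  have h := AntitoneOn.sum_le_integral (f := fun x : ℝ => x ^ (-t)) (x₀ := 1) (a := N)
    (by
      intro a ha b hb hab
      have ha' : (0 : ℝ) < a := lt_of_lt_of_le one_pos ha.1
      exact Real.rpow_le_rpow_of_nonpos ha' hab (by linarith))
  rw [integral_rpow (Or.inl (by linarith))] at h
  have e : ∑ d ∈ range N, (((d + 1 : ℕ) : ℝ) + 1) ^ (-t) =
      ∑ i ∈ range N, (fun x : ℝ => x ^ (-t)) (1 + ((i + 1 : ℕ) : ℝ)) := by
    refine Finset.sum_congr rfl fun i _ => ?_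
    simp only
    rw [add_comm]
  rw [e]
  have h1 : (1 : ℝ) ≤ ((N : ℝ) + 1) ^ (1 - t) := by
    apply Real.one_le_rpow <;> linarith [Nat.cast_nonneg (α := ℝ) N]
  have h2 : (((1 : ℝ) + N) ^ (-t + 1) - 1 ^ (-t + 1)) / (-t + 1) ≤
      1 / (1 - t) * ((N : ℝ) + 1) ^ (1 - t) := by
    rw [show -t + 1 = 1 - t by ring, Real.one_rpow, add_comm (1 : ℝ) N, div_mul_eq_mul_div, one_mul]
    apply div_le_div_of_nonneg_right _ (by linarith)
    linarith
  simp only [Nat.cast_zero, zero_add, Real.one_rpow]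
  linarith

/-- the tail function -/
noncomputable def tailF (s : ℝ) (m : ℕ) (d : ℤ) : ℝ :=
  if (m : ℤ) < |d| then |(d : ℝ)| ^ (-s) else 0

theorem tailF_nonneg (s : ℝ) (m : ℕ) (d : ℤ) : 0 ≤ tailF s m d := by
  unfold tailF
  split_ifs <;> positivity

theorem summable_tailF (s : ℝ) (hs : 1 < s) (m : ℕ) : Summable (tailF s m) := by
  refine Summable.of_nonneg_of_le (tailF_nonneg s m) (fun d => ?_) (Real.summable_abs_int_rpow hs)
  unfold tailF
  split_ifs
  · exact le_rfl
  · positivity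

theorem tailF_neg (s : ℝ) (m : ℕ) (d : ℤ) : tailF s m (-d) = tailF s m d := by
  unfold tailF
  rw [abs_neg]
  push_cast
  rw [abs_neg]

theorem tailF_small (s : ℝ) (m : ℕ) (n : ℕ) (h : n ≤ m) : tailF s m (n : ℤ) = 0 := by
  unfold tailF
  rw [if_neg]
  rw [abs_of_nonneg (by positivity)]
  omega

theorem tailF_large (s : ℝ) (m : ℕ) (n : ℕ) :
    tailF s m ((n + m + 1 : ℕ) : ℤ) = ((n : ℝ) + m + 1) ^ (-s) := by
  unfold tailF
  rw [if_pos]
  · rw [abs_of_nonneg (by positivity)]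
    push_cast
    rfl
  · rw [abs_of_nonneg (by positivity)]
    omega

theorem int_tail_le (s : ℝ) (hs : 1 < s) (m : ℕ) :
    ∑' d : ℤ, tailF s m d ≤ 2 * ((1 + 1 / (s - 1)) * ((m : ℝ) + 1) ^ (1 - s)) := by
  have hS := summable_tailF s hs m
  have hs1 : Summable fun n : ℕ => tailF s m n := hS.comp_injective Nat.cast_injective
  have hs2 : Summable fun n : ℕ => tailF s m (-(n + 1)) :=
    hS.comp_injective (i := fun n : ℕ => (-(n + 1) : ℤ)) (fun a b h => by simpa using h)
  rw [tsum_of_nat_of_neg_add_one hs1 hs2]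
  have key := tail_le s hs m
  have a1 : ∑' n : ℕ, tailF s m n = ∑' n : ℕ, ((n : ℝ) + m + 1) ^ (-s) := by
    rw [← hs1.sum_add_tsum_nat_add (m + 1), Finset.sum_eq_zero, zero_add]
    · exact tsum_congr fun n => tailF_large s m n
    · intro n hn
      rw [Finset.mem_range] at hn
      exact tailF_small s m n (by omega)
  have a2 : ∑' n : ℕ, tailF s m (-(n + 1)) = ∑' n : ℕ, ((n : ℝ) + m + 1) ^ (-s) := by
    rw [← hs2.sum_add_tsum_nat_add m, Finset.sum_eq_zero, zero_add]
    · refine tsum_congr fun n => ?_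
      rw [tailF_neg, ← tailF_large s m n]
      push_cast
      rfl
    · intro n hn
      rw [Finset.mem_range] at hn
      rw [tailF_neg]
      exact tailF_small s m (n + 1) (by omega)
  rw [a1, a2]
  linarith

end Run7.h934
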