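import Pool.Agent.Run7.h934.Form
import Pool.Agent.Run7.h934.Abs

set_option autoImplicit false

/-!
# Summability of the weights and the variance bound (MP_57c4e5_pr)
-/

namespace Run7.h934

open Real Finset

theorem summable_fin (g : ℤ → ℝ) (h0 : ∀ n, 0 ≤ g n) (hg : Summable g) (n : ℕ) :
    Summable fun v : Fin n → ℤ => ∏ i, g (v i) := by
  induction n with
  | zero => exact Summable.of_finite
  | succ n ih =>
    have h := hg.mul_of_nonneg ih h0 (fun v => Finset.prod_nonneg fun i _ => h0 _)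
    refine (Equiv.summable_iff (Fin.consEquiv (fun _ : Fin (n + 1) => ℤ))).1 ?_
    refine h.congr fun p => ?_
    simp [Fin.consEquiv, Fin.prod_univ_succ]

theorem summable_pi {ι : Type*} [Fintype ι] (g : ℤ → ℝ) (h0 : ∀ n, 0 ≤ g n) (hg : Summable g) :
    Summable fun v : ι → ℤ => ∏ i, g (v i) := by
  have h := summable_fin g h0 hg (Fintype.card ι)
  refine (Equiv.summable_iff (Equiv.arrowCongr (Fintype.equivFin ι).symm (Equiv.refl ℤ))).1 ?_
  refine h.congr fun v => ?_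
  simp only [Function.comp]
  exact (Fintype.prod_equiv (Fintype.equivFin ι) _ _ (fun i => by simp)).symm

theorem summable_gauss (c : ℝ) (hc : 0 < c) : Summable fun n : ℤ => exp (-c * (n : ℝ) ^ 2) := by
  have h1 : Summable fun n : ℕ => exp (-c * ((n : ℤ) : ℝ) ^ 2) := by
    have h := (Real.summable_exp_nat_mul_iff (a := -c)).2 (by linarith)
    refine Summable.of_nonneg_of_le (fun n => (exp_pos _).le) (fun n => ?_) h
    apply exp_le_exp.2
    have : (n : ℝ) ≤ (n : ℝ) ^ 2 := by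
      rcases Nat.eq_zero_or_pos n with h | h
      · simp [h]
      · have : (1 : ℝ) ≤ n := by exact_mod_cast h
        nlinarith
    push_cast
    nlinarith
  refine Summable.of_nat_of_neg h1 ?_
  refine h1.congr fun n => ?_
  push_cast
  ring_nf

/-- configurations supported in `[-N, N]` -/
def KN (N : ℕ) : AddSubgroup (ℤ → ℤ) where
  carrier := {φ | ∀ x : ℤ, (N : ℤ) < |x| → φ x = 0}
  add_mem' := by
    intro a b ha hb x hx
    simp [ha x hx, hb x hx]
  zero_mem' := by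
    intro x _
    rfl
  neg_mem' := by
    intro a ha x hx
    simp [ha x hx]

theorem KN_supp (N : ℕ) (φ : KN N) (x : ℤ) (hx : (N : ℤ) < |x|) : ((φ.1 x : ℤ) : ℝ) = 0 := by
  rw [φ.2 x hx]
  simp

/-- the energy form on configurations -/
noncomputable def Bz (α : ℝ) (N : ℕ) (φ ψ : KN N) : ℝ :=
  Bf α (fun x => (φ.1 x : ℝ)) (fun x => (ψ.1 x : ℝ))

theorem Bz_lower (α : ℝ) (hα : 2 < α) (N : ℕ) (φ : KN N) :
    (2 * (N : ℝ) + 2) ^ (-α) * ∑ x : Finset.Icc (-(N : ℤ)) N, ((φ.1 x : ℤ) : ℝ) ^ 2 ≤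
      Bz α N φ φ := by
  have hS := summable_T α (by linarith) N (fun x => (φ.1 x : ℝ)) (fun x => (φ.1 x : ℝ))
    (KN_supp N φ) (KN_supp N φ)
  set s : Finset (ℤ × ℤ) := (Finset.Icc (-(N : ℤ)) N).image (fun x => (x, (N : ℤ) + 1)) with hs
  have h1 : ∑ p ∈ s, T α (fun x => (φ.1 x : ℝ)) (fun x => (φ.1 x : ℝ)) p ≤ Bz α N φ φ := by
    unfold Bz Bf
    refine hS.sum_le_tsum s ?_
    intro p _
    unfold T
    exact mul_nonneg (by positivity) (mul_self_nonneg _)
  refine le_trans ?_ h1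
  rw [hs, Finset.sum_image (by intro a _ b _ h; simpa using h)]
  rw [Finset.sum_coe_sort (Finset.Icc (-(N : ℤ)) N) (fun x => ((φ.1 x : ℤ) : ℝ) ^ 2),
    Finset.mul_sum]
  refine Finset.sum_le_sum fun x hx => ?_
  rw [Finset.mem_Icc] at hx
  unfold T
  have hz : φ.1 ((N : ℤ) + 1) = 0 := by
    apply φ.2
    rw [lt_abs]
    left
    omega
  simp only [hz, Int.cast_zero, sub_zero]
  rw [← pow_two]
  apply mul_le_mul_of_nonneg_right _ (sq_nonneg _)
  have hx1 : |((x - (N + 1) : ℤ) : ℝ)| = (N : ℝ) + 1 - x := by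
    push_cast
    rw [abs_of_nonpos]
    · ring
    · have : (x : ℝ) ≤ N := by exact_mod_cast hx.2
      linarith
  rw [hx1]
  have h2 : (x : ℝ) ≤ N := by exact_mod_cast hx.2
  have h3 : -(N : ℝ) ≤ x := by exact_mod_cast hx.1
  exact Real.rpow_le_rpow_of_nonpos (by linarith) (by linarith) (by linarith)

theorem summable_aux (α β : ℝ) (hα : 2 < α) (hβ : 0 < β) (N : ℕ) :
    Summable fun φ : KN N => (1 + ((φ.1 0 : ℤ) : ℝ) ^ 2) * exp (-β * Bz α N φ φ) := by
  set c : ℝ := β * (2 * (N : ℝ) + 2) ^ (-α) with hc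
  have hcpos : 0 < c := by positivity
  have hpi := summable_pi (ι := Finset.Icc (-(N : ℤ)) N)
    (fun n : ℤ => exp (-(c / 2) * (n : ℝ) ^ 2)) (fun n => (exp_pos _).le)
    (summable_gauss (c / 2) (by positivity))
  have hinj : Function.Injective (fun (φ : KN N) (x : Finset.Icc (-(N : ℤ)) N) => φ.1 x) := by
    intro φ ψ h
    apply Subtype.ext
    funext x
    by_cases hx : (N : ℤ) < |x|
    · rw [φ.2 x hx, ψ.2 x hx]
    · have hx' : x ∈ Finset.Icc (-(N : ℤ)) N := by
        rw [Finset.mem_Icc, ← abs_le]; omega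
      exact congrFun h ⟨x, hx'⟩
  have h1 := (hpi.comp_injective hinj).mul_left (1 + 2 / c)
  refine Summable.of_nonneg_of_le (fun φ => by positivity) (fun φ => ?_) h1
  simp only [Function.comp]
  rw [← exp_sum]
  set S : ℝ := ∑ x : Finset.Icc (-(N : ℤ)) N, ((φ.1 x : ℤ) : ℝ) ^ 2 with hSdef
  have hS0 : 0 ≤ S := Finset.sum_nonneg fun _ _ => sq_nonneg _
  have e1 : ∑ x : Finset.Icc (-(N : ℤ)) N, -(c / 2) * ((φ.1 x : ℤ) : ℝ) ^ 2 = -(c / 2) * S := by
    rw [hSdef, Finset.mul_sum]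
  rw [e1]
  have h0 : ((φ.1 0 : ℤ) : ℝ) ^ 2 ≤ S := by
    have hm : (0 : ℤ) ∈ Finset.Icc (-(N : ℤ)) N := by
      rw [Finset.mem_Icc]; omega
    exact Finset.single_le_sum (f := fun x : Finset.Icc (-(N : ℤ)) N => ((φ.1 x : ℤ) : ℝ) ^ 2)
      (fun _ _ => sq_nonneg _) (Finset.mem_univ (⟨0, hm⟩ : Finset.Icc (-(N : ℤ)) N))
  have h2 : -β * Bz α N φ φ ≤ -c * S := by
    have := Bz_lower α hα N φ
    rw [← hSdef] at this
    have h3 := mul_le_mul_of_nonneg_left this hβ.le
    rw [hc]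
    nlinarith
  have h3 : 1 + S ≤ (1 + 2 / c) * exp ((c / 2) * S) := by
    have h4 : (c / 2) * S + 1 ≤ exp ((c / 2) * S) := add_one_le_exp _
    have h5 : S ≤ 2 / c * exp ((c / 2) * S) := by
      have : S = 2 / c * ((c / 2) * S) := by field_simp
      rw [this]
      apply mul_le_mul_of_nonneg_left _ (by positivity)
      have e : 2 / c * (c / 2 * S) = S := by field_simp
      rw [e]
      linarith
    have h6 : 1 ≤ exp ((c / 2) * S) := one_le_exp (by positivity)
    nlinarith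
  calc (1 + ((φ.1 0 : ℤ) : ℝ) ^ 2) * exp (-β * Bz α N φ φ)
      ≤ (1 + S) * exp (-c * S) := by
        apply mul_le_mul (by linarith) (exp_le_exp.2 h2) (exp_pos _).le (by positivity)
    _ ≤ ((1 + 2 / c) * exp ((c / 2) * S)) * exp (-c * S) :=
        mul_le_mul_of_nonneg_right h3 (exp_pos _).le
    _ = (1 + 2 / c) * exp (-(c / 2) * S) := by
        rw [mul_assoc, ← exp_add]
        congr 2
        ring

/-- the block configuration -/
def blkZ (N r : ℕ) (h : r ≤ N) : KN N :=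
  ⟨fun x => if |x| ≤ (r : ℤ) then 1 else 0, by
    intro x hx
    have h1 : ¬ |x| ≤ (r : ℤ) := by omega
    simp only [h1, if_false]⟩

theorem blkZ_cast (N r : ℕ) (h : r ≤ N) :
    (fun x => (((blkZ N r h).1 x : ℤ) : ℝ)) = blk r := by
  funext x
  unfold blkZ blk
  by_cases hx : |x| ≤ (r : ℤ) <;> simp [hx]

/-- the total shift configuration indexed by all naturals -/
def blkN (N r : ℕ) : KN N := blkZ N (min r N) (min_le_right _ _)

theorem Bz_blk_nonneg_le (α : ℝ) (hα : 2 < α) (N r s : ℕ) (hr : r ≤ N) (hs : s ≤ N)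
    (hrs : r ≤ s) :
    Bz α N (blkN N r) (blkN N s) ≤
      4 * ((1 + 1 / (α - 2)) * (((s - r : ℕ) : ℝ) + 1) ^ (2 - α)) := by
  unfold Bz blkN
  rw [blkZ_cast, blkZ_cast, min_eq_left hr, min_eq_left hs]
  exact Bf_blk_le α hα r s hrs

theorem Bz_comm (α : ℝ) (N : ℕ) (φ ψ : KN N) : Bz α N φ ψ = Bz α N ψ φ := Bf_comm _ _ _

/-- the sum of all interactions of blocks -/
theorem total_le (α β : ℝ) (hα : 2 < α) (hα3 : α < 3) (hβ : 0 < β) :
    ∃ K : ℝ, 0 < K ∧ ∀ N : ℕ, ∑ r ∈ range (N + 1), ∑ s ∈ range (N + 1),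
      (exp (2 * β * Bz α N (blkN N r) (blkN N s)) - 1) ≤ K * ((N : ℝ) + 1) ^ (4 - α) := by
  set C : ℝ := 4 * (1 + 1 / (α - 2)) with hC
  have hCpos : 0 < C := by
    have : 0 < α - 2 := by linarith
    positivity
  set D : ℝ := 2 * β * C * exp (2 * β * C) with hD
  have hDpos : 0 < D := by positivity
  refine ⟨2 * (D * (1 + 1 / (3 - α))), by
    have : 0 < 3 - α := by linarith
    positivity, fun N => ?_⟩
  -- the pair estimate
  have pair : ∀ r s : ℕ, r ≤ s → s ≤ N →
      exp (2 * β * Bz α N (blkN N r) (blkN N s)) - 1 ≤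
        D * (((s - r : ℕ) : ℝ) + 1) ^ (-(α - 2)) := by
    intro r s hrs hs
    have h1 := Bz_blk_nonneg_le α hα N r s (hrs.trans hs) hs hrs
    rw [show (2 : ℝ) - α = -(α - 2) by ring, ← mul_assoc, ← hC] at h1
    set y : ℝ := (((s - r : ℕ) : ℝ) + 1) ^ (-(α - 2)) with hy
    have hy0 : 0 ≤ y := by positivity
    have hy1 : y ≤ 1 := by
      rw [hy]
      apply Real.rpow_le_one_of_one_le_of_nonpos
      · linarith [Nat.cast_nonneg (α := ℝ) (s - r)]
      · linarith
    have h2 : exp (2 * β * Bz α N (blkN N r) (blkN N s)) ≤ exp (2 * β * C * y) := by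
      apply exp_le_exp.2
      nlinarith
    have h3 : exp (2 * β * C * y) - 1 ≤ D * y := by
      -- `e^u - 1 ≤ u e^u`
      set u : ℝ := 2 * β * C * y with hu
      have hu0 : 0 ≤ u := by positivity
      have h4 : exp (-u) ≥ 1 - u := by linarith [add_one_le_exp (-u)]
      have h5 : exp u * exp (-u) = 1 := by rw [← exp_add]; simp
      have h6 : exp u - 1 ≤ u * exp u := by nlinarith [exp_pos u]
      have h7 : exp u ≤ exp (2 * β * C) := by
        apply exp_le_exp.2
        rw [hu]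
        have : 0 ≤ 2 * β * C := by positivity
        nlinarith
      have h8 : u * exp u ≤ u * exp (2 * β * C) := mul_le_mul_of_nonneg_left h7 hu0
      have h9 : u * exp (2 * β * C) = D * y := by rw [hu, hD]; ring
      linarith
    linarith
  have hDy : ∀ n : ℕ, 0 ≤ D * (((n : ℕ) : ℝ) + 1) ^ (-(α - 2)) := fun n => by positivity
  -- split according to the order of `r`, `s`
  have hle : ∀ r ∈ range (N + 1), ∀ s ∈ range (N + 1),
      exp (2 * β * Bz α N (blkN N r) (blkN N s)) - 1 ≤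
      (if r ≤ s then D * (((s - r : ℕ) : ℝ) + 1) ^ (-(α - 2)) else 0) +
      (if s ≤ r then D * (((r - s : ℕ) : ℝ) + 1) ^ (-(α - 2)) else 0) := by
    intro r hr s hs
    rw [Finset.mem_range] at hr hs
    rcases le_total r s with h | h
    · have h1 := pair r s h (by omega)
      rw [if_pos h]
      have : (0 : ℝ) ≤ (if s ≤ r then D * (((r - s : ℕ) : ℝ) + 1) ^ (-(α - 2)) else 0) := by
        split_ifs
        · exact hDy _
        · exact le_rfl
      linarith
    · have h1 := pair s r h (by omega)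
      rw [Bz_comm] at h1
      rw [if_pos h]
      have : (0 : ℝ) ≤ (if r ≤ s then D * (((s - r : ℕ) : ℝ) + 1) ^ (-(α - 2)) else 0) := by
        split_ifs
        · exact hDy _
        · exact le_rfl
      linarith
  have hrow : ∀ r ∈ range (N + 1),
      ∑ s ∈ range (N + 1), (if r ≤ s then D * (((s - r : ℕ) : ℝ) + 1) ^ (-(α - 2)) else 0) ≤
        D * ((1 + 1 / (3 - α)) * ((N : ℝ) + 1) ^ (3 - α)) := by
    intro r hr
    rw [Finset.mem_range] at hr
    have e1 : ∑ s ∈ range (N + 1), (if r ≤ s then D * (((s - r : ℕ) : ℝ) + 1) ^ (-(α - 2)) else 0) =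
        ∑ s ∈ Finset.Ico r (N + 1), D * (((s - r : ℕ) : ℝ) + 1) ^ (-(α - 2)) := by
      rw [← Finset.sum_filter]
      apply Finset.sum_congr _ (fun _ _ => rfl)
      ext s
      simp only [Finset.mem_filter, Finset.mem_range, Finset.mem_Ico]
      omega
    rw [e1, Finset.sum_Ico_eq_sum_range]
    have e2 : ∑ k ∈ range (N + 1 - r), D * (((r + k - r : ℕ) : ℝ) + 1) ^ (-(α - 2)) =
        ∑ k ∈ range (N + 1 - r), D * ((k : ℝ) + 1) ^ (-(α - 2)) := by
      refine Finset.sum_congr rfl fun k _ => ?_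
      rw [Nat.add_sub_cancel_left]
    rw [e2]
    have e3 : ∑ k ∈ range (N + 1 - r), D * ((k : ℝ) + 1) ^ (-(α - 2)) ≤
        ∑ k ∈ range (N + 1), D * ((k : ℝ) + 1) ^ (-(α - 2)) := by
      apply Finset.sum_le_sum_of_subset_of_nonneg
      · intro k hk
        rw [Finset.mem_range] at hk ⊢
        omega
      · intro k _ _
        exact hDy k
    refine e3.trans ?_
    rw [← Finset.mul_sum]
    apply mul_le_mul_of_nonneg_left _ hDpos.le
    have h := sum_pow_le (α - 2) (by linarith) (by linarith) N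
    rw [show 1 - (α - 2) = 3 - α by ring] at h
    exact h
  calc ∑ r ∈ range (N + 1), ∑ s ∈ range (N + 1),
      (exp (2 * β * Bz α N (blkN N r) (blkN N s)) - 1)
      ≤ ∑ r ∈ range (N + 1), ∑ s ∈ range (N + 1),
        ((if r ≤ s then D * (((s - r : ℕ) : ℝ) + 1) ^ (-(α - 2)) else 0) +
      (if s ≤ r then D * (((r - s : ℕ) : ℝ) + 1) ^ (-(α - 2)) else 0)) :=
        Finset.sum_le_sum fun r hr => Finset.sum_le_sum fun s hs => hle r hr s hs
    _ = ∑ r ∈ range (N + 1), ∑ s ∈ range (N + 1),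
        (if r ≤ s then D * (((s - r : ℕ) : ℝ) + 1) ^ (-(α - 2)) else 0) +
        ∑ r ∈ range (N + 1), ∑ s ∈ range (N + 1),
        (if s ≤ r then D * (((r - s : ℕ) : ℝ) + 1) ^ (-(α - 2)) else 0) := by
        simp only [Finset.sum_add_distrib]
    _ ≤ ∑ r ∈ range (N + 1), D * ((1 + 1 / (3 - α)) * ((N : ℝ) + 1) ^ (3 - α)) +
        ∑ s ∈ range (N + 1), D * ((1 + 1 / (3 - α)) * ((N : ℝ) + 1) ^ (3 - α)) := by
        refine add_le_add (Finset.sum_le_sum hrow) ?_
        refine (le_of_eq Finset.sum_comm).trans ?_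
        exact Finset.sum_le_sum hrow
    _ = 2 * (D * (1 + 1 / (3 - α))) * (((N : ℝ) + 1) * ((N : ℝ) + 1) ^ (3 - α)) := by
        rw [Finset.sum_const, Finset.card_range, nsmul_eq_mul]
        push_cast
        ring
    _ = 2 * (D * (1 + 1 / (3 - α))) * ((N : ℝ) + 1) ^ (4 - α) := by
        congr 1
        have hN : (0 : ℝ) < (N : ℝ) + 1 := by positivity
        rw [← Real.rpow_one_add' hN.le (by linarith)]
        congr 1
        ring

/-- **The variance bound**, in terms of `Bz`. -/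
theorem variance_lower (α β : ℝ) (hα : 2 < α) (hα3 : α < 3) (hβ : 0 < β) :
    ∃ c : ℝ, 0 < c ∧ ∀ N : ℕ, c * ((N : ℝ) + 1) ^ (α - 2) ≤
      (∑' φ : KN N, ((φ.1 0 : ℤ) : ℝ) ^ 2 * exp (-β * Bz α N φ φ)) /
        (∑' φ : KN N, exp (-β * Bz α N φ φ)) := by
  obtain ⟨K, hK, hK2⟩ := total_le α β hα hα3 hβ
  refine ⟨1 / K, by positivity, fun N => ?_⟩
  have hN : (0 : ℝ) < (N : ℝ) + 1 := by positivity
  have hS := summable_aux α β hα hβ N
  have hw : Summable fun φ : KN N => exp (-β * Bz α N φ φ) := by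
    refine Summable.of_nonneg_of_le (fun φ => (exp_pos _).le) (fun φ => ?_) hS
    have : 0 ≤ ((φ.1 0 : ℤ) : ℝ) ^ 2 := sq_nonneg _
    nlinarith [exp_pos (-β * Bz α N φ φ)]
  have hw2 : Summable fun φ : KN N => ((φ.1 0 : ℤ) : ℝ) ^ 2 * exp (-β * Bz α N φ φ) := by
    refine Summable.of_nonneg_of_le (fun φ => by positivity) (fun φ => ?_) hS
    nlinarith [exp_pos (-β * Bz α N φ φ)]
  have hpos : 0 < ∑' φ : KN N, exp (-β * Bz α N φ φ) :=
    hw.tsum_pos (fun φ => (exp_pos _).le) 0 (exp_pos _)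
  have key := abstract_bound β (Bz α N) (Bz_comm α N)
    (fun x y z => by
      have := Bf_add α (by linarith) N (fun t => ((x.1 t : ℤ) : ℝ)) (fun t => ((y.1 t : ℤ) : ℝ))
        (fun t => ((z.1 t : ℤ) : ℝ)) (KN_supp N x) (KN_supp N y) (KN_supp N z)
      unfold Bz
      rw [← this]
      congr 1
      funext t
      simp)
    (fun φ => ((φ.1 0 : ℤ) : ℝ)) (fun x y => by simp) hw hw2 (range (N + 1))
    (fun r => blkN N r) (fun r _ => by simp [blkN, blkZ])
    (K * ((N : ℝ) + 1) ^ (4 - α)) (by positivity) (hK2 N)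
  rw [le_div_iff₀ hpos]
  refine le_trans (le_of_eq ?_) key
  congr 1
  rw [Finset.card_range]
  push_cast
  have e : ((N : ℝ) + 1) ^ 2 = ((N : ℝ) + 1) ^ (α - 2) * ((N : ℝ) + 1) ^ (4 - α) := by
    rw [← Real.rpow_add hN, ← Real.rpow_natCast]
    congr 1
    push_cast
    ring
  rw [e]
  have h4 : ((N : ℝ) + 1) ^ (4 - α) ≠ 0 := by positivity
  field_simp

end Run7.h934
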